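import Mathlib.RingTheory.PowerSeries.Substitution
import Mathlib.RingTheory.PowerSeries.Order
import Pool.Graph.R_pool_sql_team_seeded_64922ed1.X308.Iw.Main

/-!
# The involution of the Iwasawa algebra and the doubled gap theorem
-/

set_option autoImplicit false

namespace Pool.Agent.H33.IW

open PowerSeries Pool.Agent.X308.Iw

variable (p : ℕ) [hp : Fact p.Prime]

/-- The inverse of `1 + X`. -/
noncomputable def gi : Iwasawa p := invOfUnit (1 + X) 1

lemma g_mul_gi : (1 + X) * gi p = 1 := by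
  rw [gi]
  exact mul_invOfUnit _ _ (by simp)

lemma gi_mul_g : gi p * (1 + X) = 1 := by
  rw [mul_comm, g_mul_gi]

lemma constantCoeff_gi : constantCoeff (gi p) = 1 := by
  have h := congrArg constantCoeff (g_mul_gi p)
  simpa using h

lemma hasSubst_gi : HasSubst (gi p - 1) := by
  refine HasSubst.of_constantCoeff_zero' ?_
  rw [map_sub, constantCoeff_gi, map_one, sub_self]

/-- The involution of the Iwasawa algebra: the substitution of `(1 + X)⁻¹ - 1` for `X`. -/
noncomputable def iota : Iwasawa p →ₐ[ℤ_[p]] Iwasawa p := substAlgHom (hasSubst_gi p)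

variable {p}

lemma iota_apply (f : Iwasawa p) : iota p f = subst (gi p - 1) f := by
  rw [iota, coe_substAlgHom]

lemma iota_X : iota p X = gi p - 1 := by
  rw [iota_apply, subst_X (hasSubst_gi p)]

lemma iota_g : iota p (1 + X) = gi p := by
  rw [map_add, map_one, iota_X]
  ring

lemma iota_gi : iota p (gi p) = 1 + X := by
  have h : gi p * iota p (gi p) = 1 := by
    rw [← iota_g, ← map_mul, iota_g, g_mul_gi, map_one]
  calc iota p (gi p) = (1 + X) * (gi p * iota p (gi p)) := by
        rw [← mul_assoc, g_mul_gi, one_mul]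
    _ = 1 + X := by rw [h, mul_one]

lemma iota_iota (f : Iwasawa p) : iota p (iota p f) = f := by
  have h1 : subst (gi p - 1) (gi p - 1 : Iwasawa p) = (X : Iwasawa p) := by
    rw [← iota_apply, map_sub, map_one, iota_gi]
    ring
  rw [iota_apply, iota_apply, subst_comp_subst_apply (hasSubst_gi p) (hasSubst_gi p), h1, X_subst]

lemma iota_injective : Function.Injective (iota p) := by
  intro f g h
  rw [← iota_iota f, h, iota_iota]

lemma iota_C (c : ℤ_[p]) : iota p (C c) = C c := by
  have : (C c : Iwasawa p) = algebraMap ℤ_[p] (Iwasawa p) c := by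
    rw [PowerSeries.algebraMap_apply, Algebra.algebraMap_self, RingHom.id_apply]
  rw [this, AlgHom.commutes]

lemma constantCoeff_iota (f : Iwasawa p) : constantCoeff (iota p f) = constantCoeff f := by
  obtain ⟨g, hg⟩ : (X : Iwasawa p) ∣ f - C (constantCoeff f) := by
    rw [X_dvd_iff]
    simp
  have h2 : f = C (constantCoeff f) + X * g := by rw [← hg]; ring
  have h3 : iota p f = C (constantCoeff f) + (gi p - 1) * iota p g := by
    conv_lhs => rw [h2]
    rw [map_add, iota_C, map_mul, iota_X]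
  rw [h3, map_add, map_mul, map_sub, constantCoeff_gi]
  simp

lemma two_eq : (2 : Iwasawa p) = C (2 : ℤ_[p]) := (map_ofNat C 2).symm

lemma isUnit_two (hp2 : p ≠ 2) : IsUnit (2 : ℤ_[p]) := by
  have h : IsUnit ((2 : ℕ) : ℤ_[p]) := by
    rw [PadicInt.isUnit_iff, PadicInt.norm_natCast_eq_one_iff]
    exact (Nat.coprime_primes hp.out Nat.prime_two).2 hp2
  simpa using h

lemma isUnit_of_cc_two (hp2 : p ≠ 2) {u : Iwasawa p} (h : constantCoeff u = 2) : IsUnit u := by
  rw [isUnit_iff_constantCoeff, h]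
  exact isUnit_two hp2

/-- An associated invariant element. -/
lemma exists_inv (hp2 : p ≠ 2) {D u : Iwasawa p} (hD : D ≠ 0) (h : iota p D = u * D)
    (hu : constantCoeff u = 1) :
    ∃ D' : Iwasawa p, iota p D' = D' ∧ Ideal.span {D'} = Ideal.span {D} ∧ D' ≠ 0 := by
  have h1 : iota p u * u = 1 := by
    have h2 : (iota p u * u) * D = 1 * D := by
      rw [one_mul, mul_assoc, ← h, ← map_mul, ← h, iota_iota]
    exact mul_right_cancel₀ hD h2
  have h3 : IsUnit (1 + u) := isUnit_of_cc_two hp2 (by rw [map_add, map_one, hu]; norm_num)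
  refine ⟨(1 + u) * D, ?_, ?_, ?_⟩
  · rw [map_mul, h, map_add, map_one, ← mul_assoc, add_mul, h1, one_mul]
    ring
  · exact Ideal.span_singleton_mul_left_unit h3 D
  · exact mul_ne_zero h3.ne_zero hD

/-- The standard anti-invariant element. -/
noncomputable def del (p : ℕ) [Fact p.Prime] : Iwasawa p := (1 + X) - gi p

lemma iota_del : iota p (del p) = - del p := by
  rw [del, map_sub, iota_g, iota_gi]
  ring

lemma del_eq : del p = X * (gi p * (2 + X)) := by
  have h := gi_mul_g p
  have h2 : X * (gi p * (2 + X)) = gi p * (1 + X) * (1 + X) - gi p := by ring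
  rw [h2, h, one_mul, del]

lemma isUnit_del_div (hp2 : p ≠ 2) : IsUnit (gi p * (2 + X)) := by
  refine isUnit_of_cc_two hp2 ?_
  rw [map_mul, constantCoeff_gi, map_add, constantCoeff_X, one_mul, add_zero, two_eq,
    constantCoeff_C]

lemma del_ne_zero (hp2 : p ≠ 2) : del p ≠ 0 := by
  rw [del_eq]
  exact mul_ne_zero X_ne_zero (isUnit_del_div hp2).ne_zero

lemma two_ne_zero' : (2 : Iwasawa p) ≠ 0 := by
  intro h
  have h1 := congrArg constantCoeff h
  rw [map_zero, two_eq, constantCoeff_C] at h1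
  exact two_ne_zero h1

/-- The decomposition into the invariant and the anti-invariant part. -/
lemma decomp (hp2 : p ≠ 2) (g : Iwasawa p) :
    ∃ a b : Iwasawa p, iota p a = a ∧ iota p b = b ∧ g = a + del p * b := by
  obtain ⟨t, ht⟩ := isUnit_two hp2
  have ht2 : (C ((t⁻¹ : ℤ_[p]ˣ) : ℤ_[p]) : Iwasawa p) * 2 = 1 := by
    rw [two_eq, ← map_mul, ← ht, Units.inv_mul, map_one]
  set s : Iwasawa p := C ((t⁻¹ : ℤ_[p]ˣ) : ℤ_[p]) with hs
  have his : iota p s = s := iota_C _
  have hX : (X : Iwasawa p) ∣ s * (g - iota p g) := by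
    rw [X_dvd_iff, map_mul, map_sub, constantCoeff_iota, sub_self, mul_zero]
  obtain ⟨c, hc⟩ := hX
  obtain ⟨v, hv⟩ := isUnit_del_div hp2
  have hdc : s * (g - iota p g) = del p * ((v⁻¹ : (Iwasawa p)ˣ) * c) := by
    rw [hc, del_eq, ← hv]
    rw [mul_assoc, ← mul_assoc (v : Iwasawa p), Units.mul_inv, one_mul]
  refine ⟨s * (g + iota p g), (v⁻¹ : (Iwasawa p)ˣ) * c, ?_, ?_, ?_⟩
  · rw [map_mul, his, map_add, iota_iota, add_comm]
  · have h1 : iota p (s * (g - iota p g)) = - (s * (g - iota p g)) := by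
      rw [map_mul, his, map_sub, iota_iota]
      ring
    rw [hdc, map_mul, iota_del] at h1
    have h2 : del p * iota p ((v⁻¹ : (Iwasawa p)ˣ) * c) = del p * ((v⁻¹ : (Iwasawa p)ˣ) * c) := by
      linear_combination -h1
    exact mul_left_cancel₀ (del_ne_zero hp2) h2
  · rw [← hdc]
    linear_combination (-g) * ht2

/-- Uniqueness of the decomposition. -/
lemma decomp_unique (hp2 : p ≠ 2) {a b : Iwasawa p} (ha : iota p a = a) (hb : iota p b = b)
    (h : a + del p * b = 0) : a = 0 ∧ b = 0 := by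
  have h1 : a - del p * b = 0 := by
    have := congrArg (iota p) h
    rw [map_add, map_mul, iota_del, ha, hb, map_zero] at this
    linear_combination this
  have h2 : a = 0 := by
    have h3 : 2 * a = 0 := by linear_combination h + h1
    exact (mul_eq_zero.1 h3).resolve_left two_ne_zero'
  refine ⟨h2, ?_⟩
  rw [h2, zero_add] at h
  exact (mul_eq_zero.1 h).resolve_left (del_ne_zero hp2)

/-- The subring of the invariant elements. -/
noncomputable def Inv (p : ℕ) [Fact p.Prime] : Subring (Iwasawa p) :=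
  RingHom.eqLocus (iota p : Iwasawa p →+* Iwasawa p) (RingHom.id _)

lemma mem_Inv {f : Iwasawa p} : f ∈ Inv p ↔ iota p f = f := Iff.rfl

/-- **The square theorem.** -/
lemma card_sq (hp2 : p ≠ 2) {D W : Iwasawa p} (hD : iota p D = D) (hW : iota p W = W) :
    Nat.card (Iwasawa p ⧸ Ideal.span {D, W}) =
      Nat.card (Inv p ⧸ (Ideal.span {(⟨D, hD⟩ : Inv p), (⟨W, hW⟩ : Inv p)})) ^ 2 := by
  set J := Ideal.span {D, W} with hJ
  set D0 : Inv p := ⟨D, hD⟩ with hD0
  set W0 : Inv p := ⟨W, hW⟩ with hW0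
  set I := Ideal.span {D0, W0} with hI
  have hIJ : I ≤ J.comap (Inv p).subtype := by
    rw [hI, Ideal.span_le]
    rintro x (rfl | rfl)
    · exact Ideal.subset_span (by simp [hD0])
    · exact Ideal.subset_span (by simp [hW0])
  let q : Inv p ⧸ I →+* Iwasawa p ⧸ J := Ideal.quotientMap J (Inv p).subtype hIJ
  have hq : ∀ a : Inv p, q (Ideal.Quotient.mk I a) = Ideal.Quotient.mk J (a : Iwasawa p) := by
    intro a
    exact Ideal.quotientMap_mk
  let F : (Inv p ⧸ I) × (Inv p ⧸ I) → Iwasawa p ⧸ J := fun c =>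
    q c.1 + Ideal.Quotient.mk J (del p) * q c.2
  have hF : Function.Bijective F := by
    constructor
    · rintro ⟨a, b⟩ ⟨a', b'⟩ h
      obtain ⟨a, rfl⟩ := Ideal.Quotient.mk_surjective a
      obtain ⟨b, rfl⟩ := Ideal.Quotient.mk_surjective b
      obtain ⟨a', rfl⟩ := Ideal.Quotient.mk_surjective a'
      obtain ⟨b', rfl⟩ := Ideal.Quotient.mk_surjective b'
      simp only [F, hq] at h
      rw [← map_mul, ← map_mul, ← map_add, ← map_add, Ideal.Quotient.eq, hJ,
        Ideal.mem_span_pair] at h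
      obtain ⟨g, k, hgk⟩ := h
      obtain ⟨g1, g2, hg1, hg2, rfl⟩ := decomp hp2 g
      obtain ⟨k1, k2, hk1, hk2, rfl⟩ := decomp hp2 k
      have hA : iota p ((a : Iwasawa p) - a' - (g1 * D + k1 * W)) =
          (a : Iwasawa p) - a' - (g1 * D + k1 * W) := by
        rw [map_sub, map_sub, map_add, map_mul, map_mul, hg1, hk1, hD, hW]
        have e1 : iota p (a : Iwasawa p) = a := a.2
        have e2 : iota p (a' : Iwasawa p) = a' := a'.2
        rw [e1, e2]
      have hB : iota p ((b : Iwasawa p) - b' - (g2 * D + k2 * W)) =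
          (b : Iwasawa p) - b' - (g2 * D + k2 * W) := by
        rw [map_sub, map_sub, map_add, map_mul, map_mul, hg2, hk2, hD, hW]
        have e1 : iota p (b : Iwasawa p) = b := b.2
        have e2 : iota p (b' : Iwasawa p) = b' := b'.2
        rw [e1, e2]
      obtain ⟨e1, e2⟩ := decomp_unique hp2 hA hB (by linear_combination -hgk)
      have f1 : Ideal.Quotient.mk I a = Ideal.Quotient.mk I a' := by
        rw [Ideal.Quotient.eq, hI, Ideal.mem_span_pair]
        refine ⟨⟨g1, hg1⟩, ⟨k1, hk1⟩, ?_⟩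
        apply Subtype.ext
        simp only [hD0, hW0, Subring.coe_add, Subring.coe_mul, AddSubgroupClass.coe_sub]
        linear_combination -e1
      have f2 : Ideal.Quotient.mk I b = Ideal.Quotient.mk I b' := by
        rw [Ideal.Quotient.eq, hI, Ideal.mem_span_pair]
        refine ⟨⟨g2, hg2⟩, ⟨k2, hk2⟩, ?_⟩
        apply Subtype.ext
        simp only [hD0, hW0, Subring.coe_add, Subring.coe_mul, AddSubgroupClass.coe_sub]
        linear_combination -e2
      rw [f1, f2]
    · intro g
      obtain ⟨g, rfl⟩ := Ideal.Quotient.mk_surjective g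
      obtain ⟨a, b, ha, hb, rfl⟩ := decomp hp2 g
      refine ⟨(Ideal.Quotient.mk I ⟨a, ha⟩, Ideal.Quotient.mk I ⟨b, hb⟩), ?_⟩
      simp only [F, hq, map_add, map_mul]
  rw [← Nat.card_eq_of_bijective F hF, Nat.card_prod, sq]

end Pool.Agent.H33.IW
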