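import Pool.Agent.H33.IW.Main

/-!
# The criteria for the equality of two ideals, and the sharpness
-/

set_option autoImplicit false

namespace Pool.Agent.H33.IW

open PowerSeries Pool.Agent.X308.Iw

variable {p : ℕ} [hp : Fact p.Prime]

lemma gi_sub_one : gi p - 1 = - (X * gi p) := by
  have := g_mul_gi p
  linear_combination this

/-- The quotient of the two elements is stable under the involution. -/
lemma exists_u {f D : Iwasawa p} (hf : f ≠ 0)
    (h : Ideal.span {f * iota p (f * D)} = Ideal.span {(f * D) * iota p f}) :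
    ∃ u, iota p D = u * D := by
  obtain ⟨w, hw⟩ := Ideal.span_singleton_eq_span_singleton.1 h
  have hf' : iota p f ≠ 0 := by
    intro h0
    apply hf
    have := congrArg (iota p) h0
    rwa [iota_iota, map_zero] at this
  have h1 : iota p D * w = D := by
    apply mul_left_cancel₀ (mul_ne_zero hf hf')
    rw [map_mul] at hw
    linear_combination hw
  refine ⟨((w⁻¹ : (Iwasawa p)ˣ) : Iwasawa p), ?_⟩
  calc iota p D = (iota p D * w) * ((w⁻¹ : (Iwasawa p)ˣ) : Iwasawa p) := by
        rw [mul_assoc, Units.mul_inv, mul_one]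
    _ = _ := by rw [h1, mul_comm]

lemma cc_u_of_cc {D u : Iwasawa p} (h : iota p D = u * D) (hD : constantCoeff D ≠ 0) :
    constantCoeff u = 1 := by
  have h1 := congrArg constantCoeff h
  rw [constantCoeff_iota, map_mul] at h1
  exact mul_right_cancel₀ hD (by rw [one_mul, ← h1])

/-- The sign of the functional equation is `1` if the order of vanishing is even. -/
lemma cc_u_of_even {D u : Iwasawa p} (h : iota p D = u * D) {r : ℕ} (hr : Even r)
    {D1 : Iwasawa p} (hD1 : D = X ^ r * D1) (hc : constantCoeff D1 ≠ 0) :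
    constantCoeff u = 1 := by
  rw [hD1, map_mul, map_pow, iota_X, gi_sub_one, hr.neg_pow, mul_pow] at h
  have h2 : (gi p) ^ r * iota p D1 = u * D1 := by
    apply mul_left_cancel₀ (pow_ne_zero r (X_ne_zero (R := ℤ_[p])))
    linear_combination h
  have h3 := congrArg constantCoeff h2
  rw [map_mul, constantCoeff_gi_pow, one_mul, constantCoeff_iota, map_mul] at h3
  exact mul_right_cancel₀ hc (by rw [one_mul, ← h3])

lemma exists_X_pow {D : Iwasawa p} (hD : D ≠ 0) :
    ∃ D1 : Iwasawa p, D = X ^ D.order.toNat * D1 ∧ constantCoeff D1 ≠ 0 := by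
  obtain ⟨D1, hD1⟩ := X_pow_order_dvd (φ := D)
  refine ⟨D1, hD1, ?_⟩
  have h1 := coeff_order hD
  intro h0
  apply h1
  have h2 : coeff (D.order.toNat) D = coeff (D.order.toNat) (X ^ D.order.toNat * D1) :=
    congrArg _ hD1
  rw [h2]
  have h3 := coeff_X_pow_mul D1 D.order.toNat 0
  rw [zero_add] at h3
  rw [h3, coeff_zero_eq_constantCoeff_apply, h0]

lemma ord_ne_top {R : Type*} [Semiring R] {f : PowerSeries R} (hf : f ≠ 0) : f.order ≠ ⊤ :=
  fun h => hf (order_eq_top.1 h)

lemma order_toNat_mul {f D : Iwasawa p} (hf : f ≠ 0) (hD : D ≠ 0) :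
    (f * D).order.toNat = f.order.toNat + D.order.toNat := by
  rw [order_mul, ENat.toNat_add (ord_ne_top hf) (ord_ne_top hD)]

lemma cc_u_of_parity {f D u : Iwasawa p} (hf : f ≠ 0) (hD : D ≠ 0) (h : iota p D = u * D)
    (hpar : (f * D).order.toNat % 2 = f.order.toNat % 2) : constantCoeff u = 1 := by
  obtain ⟨D1, hD1, hc⟩ := exists_X_pow hD
  refine cc_u_of_even h ?_ hD1 hc
  rw [order_toNat_mul hf hD] at hpar
  rw [Nat.even_iff]
  omega

lemma span_eq_iff_isUnit {f D : Iwasawa p} (hf : f ≠ 0) :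
    Ideal.span {f} = Ideal.span {f * D} ↔ IsUnit D := by
  rw [Ideal.span_singleton_eq_span_singleton]
  constructor
  · rintro ⟨w, hw⟩
    have : (w : Iwasawa p) = D := mul_left_cancel₀ hf hw
    rw [← this]
    exact w.isUnit
  · rintro ⟨w, rfl⟩
    exact ⟨w, rfl⟩

lemma card_of_isUnit {D w : Iwasawa p} (h : IsUnit D) :
    Nat.card (Iwasawa p ⧸ Ideal.span {D, w}) = 1 := by
  rw [span_pair_eq_top_iff.2 (Or.inl h)]
  have : Subsingleton (Iwasawa p ⧸ (⊤ : Ideal (Iwasawa p))) :=
    Ideal.Quotient.subsingleton_iff.2 rfl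
  exact Nat.card_of_subsingleton (0 : Iwasawa p ⧸ (⊤ : Ideal (Iwasawa p)))

/-- The criterion at a full level. -/
theorem crit_om (hp2 : p ≠ 2) {f L : Iwasawa p} (hfL : f ∣ L)
    (hfun : Ideal.span {f * iota p L} = Ideal.span {L * iota p f}) (n : ℕ)
    (hfin : Finite (Iwasawa p ⧸ Ideal.span {L, om p n})) :
    Ideal.span {f} = Ideal.span {L} ↔
      Nat.card (Iwasawa p ⧸ Ideal.span {L, om p n}) <
        p ^ (2 * n + 1) * Nat.card (Iwasawa p ⧸ Ideal.span {f, om p n}) := by
  obtain ⟨D, rfl⟩ := hfL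
  have hc := not_X_dvd (X_dvd_om n) hfin
  rw [map_mul] at hc
  have hf : f ≠ 0 := by
    rintro rfl
    simp at hc
  have hD : D ≠ 0 := by
    rintro rfl
    simp at hc
  obtain ⟨u, hu⟩ := exists_u hf hfun
  have hcu := cc_u_of_cc hu (right_ne_zero_of_mul hc)
  have hf1 : Finite (Iwasawa p ⧸ Ideal.span {f, om p n}) :=
    finite_of_le (span_pair_le (dvd_mul_right _ _) dvd_rfl) hfin
  have hf2 : Finite (Iwasawa p ⧸ Ideal.span {D, om p n}) :=
    finite_of_le (span_pair_le (dvd_mul_left _ _) dvd_rfl) hfin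
  have hpos : 0 < Nat.card (Iwasawa p ⧸ Ideal.span {f, om p n}) := Nat.card_pos
  rw [card_mul_left (not_p_dvd_om n) hf1, span_eq_iff_isUnit hf,
    mul_comm (Nat.card (Iwasawa p ⧸ Ideal.span {f, om p n}))]
  constructor
  · intro h
    rw [card_of_isUnit h]
    exact Nat.mul_lt_mul_of_pos_right (Nat.one_lt_pow (by omega) hp.out.one_lt) hpos
  · intro h
    by_contra hDu
    have h1 := gap_om hp2 hD hu hcu hDu n hf2
    exact absurd (Nat.mul_le_mul_right _ h1) (not_le.2 h)

/-- The criterion at a set of primitive levels, and the ratio. -/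
theorem crit_prod (hp2 : p ≠ 2) {f L : Iwasawa p} (hL : L ≠ 0) (hfL : f ∣ L)
    (hfun : Ideal.span {f * iota p L} = Ideal.span {L * iota p f})
    (hpar : L.order.toNat % 2 = f.order.toNat % 2) (S : Finset ℕ)
    (hfin : Finite (Iwasawa p ⧸ Ideal.span {L, ∏ n ∈ S, ph p n})) :
    (∃ k : ℕ, Nat.card (Iwasawa p ⧸ Ideal.span {L, ∏ n ∈ S, ph p n}) =
      p ^ (2 * k) * Nat.card (Iwasawa p ⧸ Ideal.span {f, ∏ n ∈ S, ph p n})) ∧
    (S.Nonempty → (Ideal.span {f} = Ideal.span {L} ↔
      Nat.card (Iwasawa p ⧸ Ideal.span {L, ∏ n ∈ S, ph p n}) <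
        p ^ (2 * S.card) * Nat.card (Iwasawa p ⧸ Ideal.span {f, ∏ n ∈ S, ph p n}))) := by
  obtain ⟨D, rfl⟩ := hfL
  have hf : f ≠ 0 := left_ne_zero_of_mul hL
  have hD : D ≠ 0 := right_ne_zero_of_mul hL
  obtain ⟨u, hu⟩ := exists_u hf hfun
  have hcu := cc_u_of_parity hf hD hu hpar
  have hw : ¬ (p : Iwasawa p) ∣ ∏ n ∈ S, ph p n := by
    classical
    rw [← red_eq_zero_iff, map_prod, Finset.prod_eq_zero_iff]
    rintro ⟨n, -, hn⟩
    exact not_p_dvd_ph n (red_eq_zero_iff.1 hn)
  have hf1 : Finite (Iwasawa p ⧸ Ideal.span {f, ∏ n ∈ S, ph p n}) :=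
    finite_of_le (span_pair_le (dvd_mul_right _ _) dvd_rfl) hfin
  have hf2 : Finite (Iwasawa p ⧸ Ideal.span {D, ∏ n ∈ S, ph p n}) :=
    finite_of_le (span_pair_le (dvd_mul_left _ _) dvd_rfl) hfin
  have hpos : 0 < Nat.card (Iwasawa p ⧸ Ideal.span {f, ∏ n ∈ S, ph p n}) := Nat.card_pos
  rw [card_mul_left hw hf1, span_eq_iff_isUnit hf,
    mul_comm (Nat.card (Iwasawa p ⧸ Ideal.span {f, ∏ n ∈ S, ph p n}))]
  obtain ⟨k, hk⟩ := prod_pow hp2 hD hu hcu S hf2
  refine ⟨⟨k, by rw [hk]⟩, fun hS => ⟨fun h => ?_, fun h => ?_⟩⟩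
  · rw [card_of_isUnit h]
    refine Nat.mul_lt_mul_of_pos_right (Nat.one_lt_pow ?_ hp.out.one_lt) hpos
    have := Finset.card_pos.2 hS
    omega
  · by_contra hDu
    have h1 := gap_prod hp2 hD hu hcu hDu S hf2
    exact absurd (Nat.mul_le_mul_right _ h1) (not_le.2 h)

/-! ### The lambda invariant -/

lemma cc_red (g : Iwasawa p) : constantCoeff (red g) = PadicInt.toZMod (constantCoeff g) := by
  rw [red, ← coeff_zero_eq_constantCoeff_apply, coeff_map, coeff_zero_eq_constantCoeff_apply]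

/-- The lambda invariant of an element with even functional equation is even. -/
lemma even_lambda (hp2 : p ≠ 2) {D u : Iwasawa p} (hpD : ¬ (p : Iwasawa p) ∣ D)
    (hD : iota p D = u * D) (hu : constantCoeff u = 1) : Even (red D).order.toNat := by
  have hr : red D ≠ 0 := fun h => hpD (red_eq_zero_iff.1 h)
  set k := (red D).order.toNat with hk
  obtain ⟨e, he⟩ := X_pow_order_dvd (φ := red D)
  rw [← hk] at he
  have hce : constantCoeff e ≠ 0 := by
    intro h0
    apply coeff_order hr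
    have h3 := coeff_X_pow_mul e k 0
    rw [zero_add] at h3
    rw [← hk]
    conv_lhs => rw [he]
    rw [h3, coeff_zero_eq_constantCoeff_apply, h0]
  obtain ⟨E, rfl⟩ : ∃ E : Iwasawa p, red E = e :=
    PowerSeries.map_surjective _ (ZMod.ringHom_surjective _) e
  obtain ⟨a, ha⟩ : (p : Iwasawa p) ∣ D - X ^ k * E := by
    rw [← red_eq_zero_iff, map_sub, map_mul, map_pow, he]
    have : red (X : Iwasawa p) = X := by rw [red, map_X]
    rw [this, sub_self]
  have hred : red (iota p D) = (-1) ^ k * X ^ k * (red (gi p) ^ k * red (iota p E)) := by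
    have h1 : iota p D = (p : Iwasawa p) * iota p a + (-1) ^ k * X ^ k * ((gi p) ^ k * iota p E) := by
      have h2 : D = (p : Iwasawa p) * a + X ^ k * E := by rw [← ha]; ring
      conv_lhs => rw [h2]
      rw [map_add, map_mul, map_mul, map_pow, iota_X, gi_sub_one, neg_pow, mul_pow, map_natCast]
      ring
    have hX : red (X : Iwasawa p) = X := by rw [red, map_X]
    have hp0 : red ((p : Iwasawa p) * iota p a) = 0 := red_eq_zero_iff.2 (dvd_mul_right _ _)
    rw [h1, map_add, hp0, zero_add, map_mul, map_mul, map_mul, map_pow, map_pow, map_pow, map_neg,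
      map_one, hX]
  rw [hD, map_mul, he] at hred
  have h2 : red u * red E = (-1) ^ k * (red (gi p) ^ k * red (iota p E)) := by
    apply mul_left_cancel₀ (pow_ne_zero k (X_ne_zero (R := ZMod p)))
    linear_combination hred
  have h3 := congrArg constantCoeff h2
  rw [map_mul, map_mul, map_mul, map_pow, map_pow, map_neg, map_one, cc_red, cc_red, cc_red,
    cc_red, constantCoeff_gi, hu, constantCoeff_iota, map_one, one_pow, one_mul,
    ← cc_red E] at h3
  have h4 : ((-1 : ZMod p)) ^ k = 1 := by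
    apply mul_right_cancel₀ hce
    rw [one_mul, ← h3]
  by_contra hodd
  rw [Nat.not_even_iff_odd] at hodd
  rw [hodd.neg_one_pow] at h4
  have h5 : ((2 : ℕ) : ZMod p) = 0 := by
    push_cast
    linear_combination -h4
  rw [ZMod.natCast_eq_zero_iff] at h5
  exact hp2 ((Nat.prime_dvd_prime_iff_eq hp.out Nat.prime_two).1 h5)

/-- The criterion with the lambda invariant. -/
theorem crit_lambda (hp2 : p ≠ 2) {f L : Iwasawa p} (hL : L ≠ 0) (hfL : f ∣ L)
    (hfun : Ideal.span {f * iota p L} = Ideal.span {L * iota p f})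
    (hpar : L.order.toNat % 2 = f.order.toNat % 2) (m : ℕ) (f1 L1 : Iwasawa p)
    (h1 : f = (p : Iwasawa p) ^ m * f1) (h2 : L = (p : Iwasawa p) ^ m * L1)
    (hpL : ¬ (p : Iwasawa p) ∣ L1) (hlam : (red L1).order ≤ (red f1).order + 1) :
    Ideal.span {f} = Ideal.span {L} := by
  obtain ⟨D, rfl⟩ := hfL
  have hf : f ≠ 0 := left_ne_zero_of_mul hL
  have hD : D ≠ 0 := right_ne_zero_of_mul hL
  obtain ⟨u, hu⟩ := exists_u hf hfun
  have hcu := cc_u_of_parity hf hD hu hpar
  have h3 : f1 * D = L1 := by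
    apply mul_left_cancel₀ (pow_ne_zero m (p_ne_zero (p := p)))
    rw [← mul_assoc, ← h1, ← h2]
  have hpD : ¬ (p : Iwasawa p) ∣ D := fun h => hpL (h3 ▸ dvd_mul_of_dvd_right h _)
  have hpf : ¬ (p : Iwasawa p) ∣ f1 := fun h => hpL (h3 ▸ dvd_mul_of_dvd_left h _)
  have hrD : red D ≠ 0 := fun h => hpD (red_eq_zero_iff.1 h)
  have hrf : red f1 ≠ 0 := fun h => hpf (red_eq_zero_iff.1 h)
  rw [← h3, map_mul, order_mul] at hlam
  have h4 : (red D).order ≤ 1 := by
    have h5 := ord_ne_top hrf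
    exact (ENat.add_le_add_iff_left h5).1 hlam
  have h5 := even_lambda hp2 hpD hu hcu
  have h6 : (red D).order.toNat = 0 := by
    have h7 : (red D).order.toNat ≤ 1 := by
      have := ENat.toNat_le_toNat h4 (by simp)
      simpa using this
    rcases h5 with ⟨r, hr⟩
    omega
  rw [span_eq_iff_isUnit hf, isUnit_iff_constantCoeff]
  by_contra hn
  have h8 : PadicInt.toZMod (constantCoeff D) = 0 := by
    have h9 : constantCoeff D ∈ IsLocalRing.maximalIdeal ℤ_[p] := hn
    rwa [← PadicInt.ker_toZMod, RingHom.mem_ker] at h9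
  have h10 := coeff_order hrD
  rw [h6, coeff_zero_eq_constantCoeff_apply, cc_red, h8] at h10
  exact h10 rfl

end Pool.Agent.H33.IW
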