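import Pool.Agent.H33.IW.Mod

/-!
# The criterion for modules
-/

set_option autoImplicit false

namespace Pool.Agent.H33.IW

open PowerSeries Pool.Agent.X308.Iw

variable {p : ℕ} [hp : Fact p.Prime]

/-- The cyclic module `Λ / (L)` has the characteristic ideal `(L)`. -/
lemma hasChar_cyclic {L : Iwasawa p} (hL : L ≠ 0) :
    HasChar p (Iwasawa p ⧸ Ideal.span {L}) L := by
  refine ⟨hL, 1, fun _ => L, LinearMap.pi fun _ => LinearMap.id, ?_, ?_, by simp⟩
  · have h : LinearMap.ker (LinearMap.pi fun _ : Fin 1 =>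
        (LinearMap.id : (Iwasawa p ⧸ Ideal.span {L}) →ₗ[Iwasawa p] _)) = ⊥ := by
      rw [LinearMap.ker_eq_bot]
      intro x y h
      exact congrFun h 0
    rw [h]
    infer_instance
  · have h : LinearMap.range (LinearMap.pi fun _ : Fin 1 =>
        (LinearMap.id : (Iwasawa p ⧸ Ideal.span {L}) →ₗ[Iwasawa p] _)) = ⊤ := by
      rw [LinearMap.range_eq_top]
      intro x
      refine ⟨x 0, ?_⟩
      funext i
      rw [Subsingleton.elim i 0]
      rfl
    rw [h]
    infer_instance

/-- The functional equation of the quotient of two elements. -/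
lemma cross_of_stable {f L g h : Iwasawa p} (hg0 : g ≠ 0)
    (h1 : Ideal.span {L * g} = Ideal.span {f * h})
    (hg : Ideal.span {iota p g} = Ideal.span {g}) (hh : Ideal.span {iota p h} = Ideal.span {h}) :
    Ideal.span {f * iota p L} = Ideal.span {L * iota p f} := by
  obtain ⟨a, ha⟩ := Ideal.span_singleton_eq_span_singleton.1 h1
  obtain ⟨b, hb⟩ := Ideal.span_singleton_eq_span_singleton.1 hg
  obtain ⟨c, hc⟩ := Ideal.span_singleton_eq_span_singleton.1 hh
  have hg' : iota p g ≠ 0 := by
    intro h0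
    apply hg0
    rw [← hb, h0, zero_mul]
  have hιa : IsUnit (iota p (a : Iwasawa p)) := a.isUnit.map (iota p)
  have h2 := congrArg (iota p) ha
  rw [map_mul, map_mul, map_mul] at h2
  have h3 : (f * iota p L) * (iota p (a : Iwasawa p) * (c : Iwasawa p)) * (g * iota p g) =
      (L * iota p f) * ((a : Iwasawa p) * (b : Iwasawa p)) * (g * iota p g) := by
    calc (f * iota p L) * (iota p (a : Iwasawa p) * (c : Iwasawa p)) * (g * iota p g)
        = f * g * (c : Iwasawa p) * (iota p L * iota p g * iota p (a : Iwasawa p)) := by ring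
      _ = f * g * (c : Iwasawa p) * (iota p f * iota p h) := by rw [h2]
      _ = f * (iota p h * (c : Iwasawa p)) * g * iota p f := by ring
      _ = (f * h) * g * iota p f := by rw [hc]
      _ = (L * g * (a : Iwasawa p)) * g * iota p f := by rw [ha]
      _ = (L * g * (a : Iwasawa p)) * (iota p g * (b : Iwasawa p)) * iota p f := by rw [hb]
      _ = (L * iota p f) * ((a : Iwasawa p) * (b : Iwasawa p)) * (g * iota p g) := by ring
  have h4 := mul_right_cancel₀ (mul_ne_zero hg0 hg') h3
  have h5 : IsUnit (iota p (a : Iwasawa p) * (c : Iwasawa p)) := hιa.mul c.isUnit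
  have h6 : IsUnit ((a : Iwasawa p) * (b : Iwasawa p)) := a.isUnit.mul b.isUnit
  rw [← Ideal.span_singleton_mul_right_unit h5 (f * iota p L), h4,
    Ideal.span_singleton_mul_right_unit h6]

/-- The criterion for modules from the criterion for elements. -/
lemma mod_iff {M N : Type*} [AddCommGroup M] [Module (Iwasawa p) M] [AddCommGroup N]
    [Module (Iwasawa p) N] {f L w : Iwasawa p} (hM : HasChar p M f) (hN : HasChar p N L)
    (hfL : f ∣ L) (hw : ¬ (p : Iwasawa p) ∣ w) (hfin : Finite (Quo p N w)) :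
    Finite (Iwasawa p ⧸ Ideal.span {L, w}) ∧ Finite (Quo p M w) ∧ Finite (Ker p M w) ∧
      Finite (Ker p N w) ∧
      ∀ c : ℕ,
        (Nat.card (Quo p N w) * Nat.card (Ker p M w) <
          c * (Nat.card (Quo p M w) * Nat.card (Ker p N w)) ↔
        Nat.card (Iwasawa p ⧸ Ideal.span {L, w}) <
          c * Nat.card (Iwasawa p ⧸ Ideal.span {f, w})) ∧
        (Nat.card (Quo p N w) * Nat.card (Ker p M w) =
          c * (Nat.card (Quo p M w) * Nat.card (Ker p N w)) ↔
        Nat.card (Iwasawa p ⧸ Ideal.span {L, w}) =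
          c * Nat.card (Iwasawa p ⧸ Ideal.span {f, w})) := by
  have h1 : Finite (Iwasawa p ⧸ Ideal.span {L, w}) := (card_char hN hw).1.1 hfin
  have h2 : Finite (Iwasawa p ⧸ Ideal.span {f, w}) := finite_of_le (span_pair_le hfL dvd_rfl) h1
  obtain ⟨h3, h4⟩ := (card_char hN hw).2 h1
  obtain ⟨h5, h6⟩ := (card_char hM hw).2 h2
  have h7 : Finite (Quo p M w) := (card_char hM hw).1.2 h2
  have hpN : 0 < Nat.card (Ker p N w) := Nat.card_pos
  have hpM : 0 < Nat.card (Ker p M w) := Nat.card_pos
  refine ⟨h1, h7, h5, h3, fun c => ?_⟩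
  have e1 : Nat.card (Quo p N w) * Nat.card (Ker p M w) =
      Nat.card (Iwasawa p ⧸ Ideal.span {L, w}) *
        (Nat.card (Ker p N w) * Nat.card (Ker p M w)) := by
    rw [h4]
    ring
  have e2 : c * (Nat.card (Quo p M w) * Nat.card (Ker p N w)) =
      c * Nat.card (Iwasawa p ⧸ Ideal.span {f, w}) *
        (Nat.card (Ker p N w) * Nat.card (Ker p M w)) := by
    rw [h6]
    ring
  rw [e1, e2]
  exact ⟨Nat.mul_lt_mul_right (Nat.mul_pos hpN hpM),
    Nat.mul_left_inj (Nat.mul_pos hpN hpM).ne'⟩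

lemma not_p_dvd_prod (S : Finset ℕ) : ¬ (p : Iwasawa p) ∣ ∏ n ∈ S, ph p n := by
  classical
  rw [← red_eq_zero_iff, map_prod, Finset.prod_eq_zero_iff]
  rintro ⟨n, -, hn⟩
  exact not_p_dvd_ph n (red_eq_zero_iff.1 hn)

end Pool.Agent.H33.IW
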