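import Pool.Agent.H33.IW.Basic
import Mathlib.GroupTheory.PGroup
import Mathlib.RingTheory.PowerSeries.Order

/-!
# The doubled gap theorem
-/

set_option autoImplicit false

namespace Pool.Agent.H33.IW

open PowerSeries Pool.Agent.X308.Iw

variable {p : ℕ} [hp : Fact p.Prime]

/-- Multiplicativity of the index. -/
lemma card_mul {f D w : Iwasawa p} (hnz : ∀ x, w ∣ f * x → w ∣ x) :
    Nat.card (Iwasawa p ⧸ Ideal.span {f * D, w}) =
      Nat.card (Iwasawa p ⧸ Ideal.span {f, w}) * Nat.card (Iwasawa p ⧸ Ideal.span {D, w}) := by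
  set J := Ideal.span {f * D, w} with hJ
  set I := Ideal.span {f, w} with hI
  set K := Ideal.span {D, w} with hK
  have hle : J ≤ I := by
    rw [hJ, Ideal.span_le]
    rintro x (rfl | rfl)
    · exact Ideal.mul_mem_right _ _ (Ideal.subset_span (by simp))
    · exact Ideal.subset_span (by simp)
  have memJ : ∀ x, x ∈ J ↔ ∃ a b, a * (f * D) + b * w = x := fun x => Ideal.mem_span_pair
  have memI : ∀ x, x ∈ I ↔ ∃ a b, a * f + b * w = x := fun x => Ideal.mem_span_pair
  have memK : ∀ x, x ∈ K ↔ ∃ a b, a * D + b * w = x := fun x => Ideal.mem_span_pair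
  clear_value J I K
  let F : (Iwasawa p ⧸ I) × (Iwasawa p ⧸ K) → Iwasawa p ⧸ J := fun c =>
    Ideal.Quotient.mk J (Quotient.out c.1 + f * Quotient.out c.2)
  have houtI : ∀ c : Iwasawa p ⧸ I, Ideal.Quotient.mk I (Quotient.out c) = c := fun c =>
    Ideal.Quotient.mk_out c
  have houtK : ∀ c : Iwasawa p ⧸ K, Ideal.Quotient.mk K (Quotient.out c) = c := fun c =>
    Ideal.Quotient.mk_out c
  have hF : Function.Bijective F := by
    constructor
    · rintro ⟨a, b⟩ ⟨a', b'⟩ h
      have h1 : (Quotient.out a + f * Quotient.out b) - (Quotient.out a' + f * Quotient.out b') ∈ J :=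
        Ideal.Quotient.eq.1 h
      have h2 : a = a' := by
        rw [← houtI a, ← houtI a', Ideal.Quotient.eq]
        have h3 : f * (Quotient.out b - Quotient.out b') ∈ I :=
          (memI _).2 ⟨Quotient.out b - Quotient.out b', 0, by ring⟩
        have h4 := Ideal.sub_mem _ (hle h1) h3
        convert h4 using 1
        ring
      subst h2
      have h3 : f * (Quotient.out b - Quotient.out b') ∈ J := by
        convert h1 using 1
        ring
      obtain ⟨g, k, hgk⟩ := (memJ _).1 h3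
      have h4 : w ∣ f * (Quotient.out b - Quotient.out b' - g * D) :=
        ⟨k, by linear_combination -hgk⟩
      obtain ⟨m, hm⟩ := hnz _ h4
      have h5 : b = b' := by
        rw [← houtK b, ← houtK b', Ideal.Quotient.eq]
        exact (memK _).2 ⟨g, m, by linear_combination -hm⟩
      rw [h5]
    · intro g
      obtain ⟨g, rfl⟩ := Ideal.Quotient.mk_surjective g
      have h1 : g - Quotient.out (Ideal.Quotient.mk I g) ∈ I := by
        rw [← Ideal.Quotient.eq, houtI]
      obtain ⟨a, b, hab⟩ := (memI _).1 h1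
      have h2 : a - Quotient.out (Ideal.Quotient.mk K a) ∈ K := by
        rw [← Ideal.Quotient.eq, houtK]
      obtain ⟨a', b', hab'⟩ := (memK _).1 h2
      refine ⟨(Ideal.Quotient.mk I g, Ideal.Quotient.mk K a), ?_⟩
      simp only [F]
      rw [Ideal.Quotient.eq, memJ]
      refine ⟨- a', - b - f * b', ?_⟩
      linear_combination (-1 : Iwasawa p) * hab - f * hab'
  rw [← Nat.card_eq_of_bijective F hF, Nat.card_prod]

/-- A power of `p` lies in every ideal of finite index. -/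
lemma exists_pow_mem {J : Ideal (Iwasawa p)} (hfin : Finite (Iwasawa p ⧸ J)) :
    ∃ N : ℕ, (p : Iwasawa p) ^ N ∈ J := by
  obtain ⟨a, b, hab, he⟩ := Finite.exists_ne_map_eq_of_infinite
    fun k : ℕ => Ideal.Quotient.mk J ((p : Iwasawa p) ^ k)
  wlog hlt : a < b generalizing a b
  · exact this b a hab.symm he.symm (lt_of_le_of_ne (not_lt.1 hlt) hab.symm)
  obtain ⟨c, rfl⟩ := Nat.exists_eq_add_of_lt hlt
  refine ⟨a, ?_⟩
  rw [Ideal.Quotient.eq] at he
  have h1 : (p : Iwasawa p) ^ a - (p : Iwasawa p) ^ (a + c + 1) =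
      (p : Iwasawa p) ^ a * (1 - (p : Iwasawa p) ^ (c + 1)) := by ring
  have h2 : IsUnit (1 - (p : Iwasawa p) ^ (c + 1)) := by
    by_contra hu
    have h3 := mem_maxIdeal hu
    have h4 : (p : Iwasawa p) ^ (c + 1) ∈ maxIdeal p := by
      rw [pow_succ]
      exact Ideal.mul_mem_left _ _ (Ideal.subset_span (by simp))
    have h5 : (1 : Iwasawa p) ∈ maxIdeal p := by
      have := Ideal.add_mem _ h3 h4
      simpa using this
    exact not_isUnit_of_mem h5 isUnit_one
  obtain ⟨v, hv⟩ := h2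
  have h3 : (p : Iwasawa p) ^ a = ((p : Iwasawa p) ^ a - (p : Iwasawa p) ^ (a + c + 1)) *
      (v⁻¹ : (Iwasawa p)ˣ) := by
    rw [h1, ← hv, mul_assoc, Units.mul_inv, mul_one]
  rw [h3]
  exact Ideal.mul_mem_right _ _ he

/-- The index of an ideal is a power of `p`. -/
lemma card_eq_pow {J : Ideal (Iwasawa p)} (hfin : Finite (Iwasawa p ⧸ J)) :
    ∃ k : ℕ, Nat.card (Iwasawa p ⧸ J) = p ^ k := by
  obtain ⟨N, hN⟩ := exists_pow_mem hfin
  have h : IsPGroup p (Multiplicative (Iwasawa p ⧸ J)) := by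
    intro g
    refine ⟨N, ?_⟩
    obtain ⟨y, hy⟩ := Ideal.Quotient.mk_surjective (Multiplicative.toAdd g)
    have h1 : (p ^ N) • Multiplicative.toAdd g = 0 := by
      rw [← hy, nsmul_eq_mul, Nat.cast_pow, ← map_natCast (Ideal.Quotient.mk J), ← map_pow,
        ← map_mul, Ideal.Quotient.eq_zero_iff_mem]
      exact Ideal.mul_mem_right _ _ hN
    apply Multiplicative.toAdd.injective
    rw [toAdd_pow, h1, toAdd_one]
  obtain ⟨k, hk⟩ := (IsPGroup.iff_card (G := Multiplicative (Iwasawa p ⧸ J))).1 h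
  exact ⟨k, hk⟩

lemma span_pair_eq_top_iff {f g : Iwasawa p} :
    Ideal.span {f, g} = ⊤ ↔ IsUnit f ∨ IsUnit g := by
  constructor
  · intro h
    by_contra hc
    rw [not_or] at hc
    have h1 : (1 : Iwasawa p) ∈ Ideal.span {f, g} := by rw [h]; trivial
    rw [Ideal.mem_span_pair] at h1
    obtain ⟨a, b, hab⟩ := h1
    have h2 : (1 : Iwasawa p) ∈ maxIdeal p := by
      rw [← hab]
      exact Ideal.add_mem _ (Ideal.mul_mem_left _ _ (mem_maxIdeal hc.1))
        (Ideal.mul_mem_left _ _ (mem_maxIdeal hc.2))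
    exact not_isUnit_of_mem h2 isUnit_one
  · rintro (h | h)
    · exact Ideal.eq_top_of_isUnit_mem _ (Ideal.subset_span (by simp)) h
    · exact Ideal.eq_top_of_isUnit_mem _ (Ideal.subset_span (by simp)) h

/-- A proper ideal has index at least `p`. -/
lemma p_le_card {f g : Iwasawa p} (hf : ¬ IsUnit f) (hg : ¬ IsUnit g)
    (hfin : Finite (Iwasawa p ⧸ Ideal.span {f, g})) :
    p ≤ Nat.card (Iwasawa p ⧸ Ideal.span {f, g}) := by
  obtain ⟨k, hk⟩ := card_eq_pow hfin
  rw [hk]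
  have hk0 : k ≠ 0 := by
    rintro rfl
    rw [pow_zero] at hk
    have h1 := (Nat.card_eq_one_iff_unique.1 hk).1
    rw [Ideal.Quotient.subsingleton_iff, span_pair_eq_top_iff] at h1
    exact h1.elim hf hg
  calc p = p ^ 1 := (pow_one p).symm
    _ ≤ p ^ k := Nat.pow_le_pow_right hp.out.pos (Nat.one_le_iff_ne_zero.2 hk0)

/-- The index of an ideal generated by two invariant elements is an even power of `p`. -/
lemma card_eq_pow_two (hp2 : p ≠ 2) {D W u v : Iwasawa p} (hD0 : D ≠ 0) (hW0 : W ≠ 0)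
    (hD : iota p D = u * D) (hW : iota p W = v * W)
    (hu : constantCoeff u = 1) (hv : constantCoeff v = 1)
    (hfin : Finite (Iwasawa p ⧸ Ideal.span {D, W})) :
    ∃ k : ℕ, Nat.card (Iwasawa p ⧸ Ideal.span {D, W}) = p ^ (2 * k) := by
  obtain ⟨D', hD', hDs, -⟩ := exists_inv hp2 hD0 hD hu
  obtain ⟨W', hW', hWs, -⟩ := exists_inv hp2 hW0 hW hv
  have hspan : Ideal.span {D', W'} = Ideal.span {D, W} := by
    rw [Ideal.span_insert, Ideal.span_insert D, hDs, hWs]
  obtain ⟨k, hk⟩ := card_eq_pow hfin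
  have hsq := card_sq hp2 hD' hW'
  rw [hspan, hk] at hsq
  obtain ⟨j, -, hj⟩ := (Nat.dvd_prime_pow hp.out).1
    (show _ ∣ p ^ k from Dvd.intro_left _ (by rw [← sq, ← hsq]) :
      Nat.card (Inv p ⧸ (Ideal.span {(⟨D', hD'⟩ : Inv p), (⟨W', hW'⟩ : Inv p)})) ∣ p ^ k)
  refine ⟨j, ?_⟩
  rw [hk, hsq, hj, ← pow_mul, mul_comm]

/-- If both elements are not units the index is at least `p ^ 2`. -/
lemma sq_le_card (hp2 : p ≠ 2) {D W u v : Iwasawa p} (hD0 : D ≠ 0) (hW0 : W ≠ 0)
    (hD : iota p D = u * D) (hW : iota p W = v * W)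
    (hu : constantCoeff u = 1) (hv : constantCoeff v = 1)
    (hfin : Finite (Iwasawa p ⧸ Ideal.span {D, W})) (hDu : ¬ IsUnit D) (hWu : ¬ IsUnit W) :
    p ^ 2 ≤ Nat.card (Iwasawa p ⧸ Ideal.span {D, W}) := by
  obtain ⟨k, hk⟩ := card_eq_pow_two hp2 hD0 hW0 hD hW hu hv hfin
  have h1 := p_le_card hDu hWu hfin
  rw [hk] at h1 ⊢
  have hk0 : k ≠ 0 := by
    rintro rfl
    have := hp.out.two_le
    simp at h1
    omega
  exact Nat.pow_le_pow_right hp.out.pos (by omega)

/-! ### The cyclotomic elements -/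

/-- `(1 + X) ^ (p ^ n) - 1`. -/
noncomputable def om (p : ℕ) [Fact p.Prime] (n : ℕ) : Iwasawa p := (1 + X) ^ (p ^ n) - 1

/-- The value of the cyclotomic polynomial `Φ` of index `p ^ (n + 1)` at `1 + X`. -/
noncomputable def ph (p : ℕ) [Fact p.Prime] (n : ℕ) : Iwasawa p :=
  ∑ i ∈ Finset.range p, ((1 + X) ^ (p ^ n)) ^ i

lemma om_zero : om p 0 = X := by
  rw [om, pow_zero, pow_one]
  ring

lemma om_succ (n : ℕ) : om p (n + 1) = om p n * ph p n := by
  rw [om, om, ph, mul_comm, geom_sum_mul, ← pow_mul, ← pow_succ]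

lemma om_eq_omega (n : ℕ) : om p n = omega p 1 n := by
  rw [om, omega, map_one, one_pow]

lemma not_p_dvd_om (n : ℕ) : ¬ (p : Iwasawa p) ∣ om p n := by
  rw [om_eq_omega]
  exact not_dvd_omega (by simp) n

lemma not_p_dvd_ph (n : ℕ) : ¬ (p : Iwasawa p) ∣ ph p n := fun h =>
  not_p_dvd_om (p := p) (n + 1) (by rw [om_succ]; exact dvd_mul_of_dvd_right h _)

lemma constantCoeff_ph (n : ℕ) : constantCoeff (ph p n) = p := by
  rw [ph, map_sum]
  simp

lemma not_isUnit_ph (n : ℕ) : ¬ IsUnit (ph p n) := by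
  rw [isUnit_iff_constantCoeff, constantCoeff_ph]
  exact PadicInt.prime_p.not_isUnit

lemma ph_ne_zero (n : ℕ) : ph p n ≠ 0 := by
  intro h
  have := constantCoeff_ph (p := p) n
  rw [h, map_zero] at this
  exact PadicInt.prime_p.ne_zero this.symm

lemma iota_ph (n : ℕ) : iota p (ph p n) = (gi p) ^ (p ^ n * (p - 1)) * ph p n := by
  have h1 : ∀ m : ℕ, gi p ^ m * (1 + X) ^ m = 1 := by
    intro m
    rw [← mul_pow, gi_mul_g, one_pow]
  rw [ph, map_sum, Finset.mul_sum]
  rw [← Finset.sum_range_reflect]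
  refine Finset.sum_congr rfl fun i hi => ?_
  rw [Finset.mem_range] at hi
  rw [map_pow, map_pow, iota_g, ← pow_mul, ← pow_mul]
  obtain ⟨j, hj⟩ : ∃ j, p - 1 = i + j := ⟨p - 1 - i, by omega⟩
  have h2 : p - 1 - i = j := by omega
  rw [h2, hj, mul_add, pow_add, mul_comm (gi p ^ (p ^ n * i)), mul_assoc, h1, mul_one]

lemma constantCoeff_gi_pow (m : ℕ) : constantCoeff ((gi p) ^ m) = 1 := by
  rw [map_pow, constantCoeff_gi, one_pow]

/-- The quotient by two multiples of `X` is infinite. -/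
lemma not_X_dvd {D W : Iwasawa p} (hW : (X : Iwasawa p) ∣ W)
    (hfin : Finite (Iwasawa p ⧸ Ideal.span {D, W})) : constantCoeff D ≠ 0 := by
  intro h
  obtain ⟨N, hN⟩ := exists_pow_mem hfin
  rw [Ideal.mem_span_pair] at hN
  obtain ⟨a, b, hab⟩ := hN
  have h1 := congrArg constantCoeff hab
  rw [map_add, map_mul, map_mul, h, X_dvd_iff.1 hW, mul_zero, mul_zero, add_zero, map_pow,
    map_natCast] at h1
  exact pow_ne_zero N PadicInt.prime_p.ne_zero h1.symm

lemma X_dvd_om (n : ℕ) : (X : Iwasawa p) ∣ om p n := by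
  rw [X_dvd_iff, om]
  simp

/-- Finiteness for divisors. -/
lemma finite_of_le {I J : Ideal (Iwasawa p)} (h : I ≤ J) (hfin : Finite (Iwasawa p ⧸ I)) :
    Finite (Iwasawa p ⧸ J) :=
  Finite.of_surjective _ (Ideal.Quotient.factor_surjective h)

lemma span_pair_le {a b c d : Iwasawa p} (h1 : c ∣ a) (h2 : d ∣ b) :
    Ideal.span {a, b} ≤ Ideal.span {c, d} := by
  rw [Ideal.span_le]
  rintro x (rfl | rfl)
  · exact Ideal.mem_of_dvd _ h1 (Ideal.subset_span (by simp))
  · exact Ideal.mem_of_dvd _ h2 (Ideal.subset_span (by simp))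

/-- Multiplicativity in the first argument. -/
lemma card_mul_left {f D w : Iwasawa p} (hw : ¬ (p : Iwasawa p) ∣ w)
    (hfin : Finite (Iwasawa p ⧸ Ideal.span {f, w})) :
    Nat.card (Iwasawa p ⧸ Ideal.span {f * D, w}) =
      Nat.card (Iwasawa p ⧸ Ideal.span {f, w}) * Nat.card (Iwasawa p ⧸ Ideal.span {D, w}) :=
  card_mul fun _ h => dvd_of_finite hw hfin h

/-- Multiplicativity in the second argument. -/
lemma card_mul_right {D w w' : Iwasawa p} (hw : ¬ (p : Iwasawa p) ∣ w)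
    (hfin : Finite (Iwasawa p ⧸ Ideal.span {D, w})) :
    Nat.card (Iwasawa p ⧸ Ideal.span {D, w * w'}) =
      Nat.card (Iwasawa p ⧸ Ideal.span {D, w}) * Nat.card (Iwasawa p ⧸ Ideal.span {D, w'}) := by
  have hw0 : w ≠ 0 := by
    rintro rfl
    exact hw (dvd_zero _)
  have key := card_mul (f := w) (D := w') (w := D) (by
    rintro x ⟨y, hy⟩
    have h1 : w ∣ D * y := ⟨x, hy.symm⟩
    obtain ⟨z, rfl⟩ := dvd_of_finite hw hfin h1
    refine ⟨z, mul_left_cancel₀ hw0 ?_⟩
    rw [hy]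
    ring)
  rw [Set.pair_comm (w * w') D, Set.pair_comm w D, Set.pair_comm w' D] at key
  exact key

/-- The lower bound for a finite set of levels. -/
lemma gap_prod (hp2 : p ≠ 2) {D u : Iwasawa p} (hD0 : D ≠ 0) (hD : iota p D = u * D)
    (hu : constantCoeff u = 1) (hDu : ¬ IsUnit D) (S : Finset ℕ)
    (hfin : Finite (Iwasawa p ⧸ Ideal.span {D, ∏ n ∈ S, ph p n})) :
    p ^ (2 * S.card) ≤ Nat.card (Iwasawa p ⧸ Ideal.span {D, ∏ n ∈ S, ph p n}) := by
  classical
  induction S using Finset.induction_on with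
  | empty =>
    simp only [Finset.card_empty, mul_zero, pow_zero]
    exact Nat.card_pos
  | insert n S hn ih =>
    rw [Finset.prod_insert hn] at hfin ⊢
    have h1 : Finite (Iwasawa p ⧸ Ideal.span {D, ph p n}) :=
      finite_of_le (span_pair_le dvd_rfl (dvd_mul_right _ _)) hfin
    have h2 : Finite (Iwasawa p ⧸ Ideal.span {D, ∏ n ∈ S, ph p n}) :=
      finite_of_le (span_pair_le dvd_rfl (dvd_mul_left _ _)) hfin
    rw [card_mul_right (not_p_dvd_ph n) h1, Finset.card_insert_of_notMem hn, mul_add, mul_one,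
      pow_add, mul_comm (p ^ (2 * S.card))]
    exact Nat.mul_le_mul (sq_le_card hp2 hD0 (ph_ne_zero n) hD (iota_ph n) hu
      (constantCoeff_gi_pow _) h1 hDu (not_isUnit_ph n)) (ih h2)

/-- The lower bound for the full level. -/
lemma gap_om (hp2 : p ≠ 2) {D u : Iwasawa p} (hD0 : D ≠ 0) (hD : iota p D = u * D)
    (hu : constantCoeff u = 1) (hDu : ¬ IsUnit D) (n : ℕ)
    (hfin : Finite (Iwasawa p ⧸ Ideal.span {D, om p n})) :
    p ^ (2 * n + 1) ≤ Nat.card (Iwasawa p ⧸ Ideal.span {D, om p n}) := by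
  induction n with
  | zero =>
    rw [mul_zero, zero_add, pow_one]
    refine p_le_card hDu ?_ hfin
    rw [om_zero]
    exact not_isUnit_of_mem (Ideal.subset_span (by simp))
  | succ n ih =>
    rw [om_succ] at hfin ⊢
    have h1 : Finite (Iwasawa p ⧸ Ideal.span {D, om p n}) :=
      finite_of_le (span_pair_le dvd_rfl (dvd_mul_right _ _)) hfin
    have h2 : Finite (Iwasawa p ⧸ Ideal.span {D, ph p n}) :=
      finite_of_le (span_pair_le dvd_rfl (dvd_mul_left _ _)) hfin
    rw [card_mul_right (not_p_dvd_om n) h1]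
    calc p ^ (2 * (n + 1) + 1) = p ^ (2 * n + 1) * p ^ 2 := by ring
      _ ≤ _ := Nat.mul_le_mul (ih h1) (sq_le_card hp2 hD0 (ph_ne_zero n) hD (iota_ph n) hu
        (constantCoeff_gi_pow _) h2 hDu (not_isUnit_ph n))

/-- The even power for a finite set of levels. -/
lemma prod_pow (hp2 : p ≠ 2) {D u : Iwasawa p} (hD0 : D ≠ 0) (hD : iota p D = u * D)
    (hu : constantCoeff u = 1) (S : Finset ℕ)
    (hfin : Finite (Iwasawa p ⧸ Ideal.span {D, ∏ n ∈ S, ph p n})) :
    ∃ k : ℕ, Nat.card (Iwasawa p ⧸ Ideal.span {D, ∏ n ∈ S, ph p n}) = p ^ (2 * k) := by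
  refine card_eq_pow_two hp2 hD0 (Finset.prod_ne_zero_iff.2 fun n _ => ph_ne_zero n) hD
    (v := ∏ n ∈ S, (gi p) ^ (p ^ n * (p - 1))) ?_ hu ?_ hfin
  · rw [map_prod, ← Finset.prod_mul_distrib]
    exact Finset.prod_congr rfl fun n _ => iota_ph n
  · rw [map_prod]
    exact Finset.prod_eq_one fun n _ => constantCoeff_gi_pow _

end Pool.Agent.H33.IW
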