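import Pool.Agent.H33.IW.Par
import Mathlib.GroupTheory.Index
import Mathlib.LinearAlgebra.Quotient.Basic
import Mathlib.LinearAlgebra.Quotient.Pi

/-!
# Modules: characteristic ideals and the Euler characteristic formula
-/

set_option autoImplicit false

namespace Pool.Agent.H33.IW

open PowerSeries Pool.Agent.X308.Iw

/-! ### Additive groups -/

/-- Indices and kernels under a homomorphism with finite kernel and cokernel. -/
lemma euler {M E : Type*} [AddCommGroup M] [AddCommGroup E] (φ : M →+ E) (m : M →+ M)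
    (e : E →+ E) (hc : ∀ x, φ (m x) = e (φ x)) (he : Function.Injective e)
    (hk : Finite φ.ker) (hI : φ.range.index ≠ 0) :
    m.range.index = e.range.index * Nat.card m.ker := by
  have hke : ∀ x, m x ∈ φ.ker → x ∈ φ.ker := by
    intro x hx
    rw [AddMonoidHom.mem_ker, hc] at hx
    rw [AddMonoidHom.mem_ker]
    exact he (by rw [hx, map_zero])
  have hkm : ∀ x, x ∈ φ.ker → m x ∈ φ.ker := by
    intro x hx
    rw [AddMonoidHom.mem_ker] at hx
    rw [AddMonoidHom.mem_ker, hc, hx, map_zero]
  -- the index of `m.range ⊔ φ.ker`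
  have h1 : (m.range ⊔ φ.ker).index = e.range.index := by
    have h2 : (m.range.map φ).index = (m.range ⊔ φ.ker).index * φ.range.index :=
      AddSubgroup.index_map _ _
    have h3 : m.range.map φ = φ.range.map e := by
      ext y
      simp only [AddSubgroup.mem_map, AddMonoidHom.mem_range]
      constructor
      · rintro ⟨_, ⟨x, rfl⟩, rfl⟩
        exact ⟨φ x, ⟨x, rfl⟩, (hc x).symm⟩
      · rintro ⟨_, ⟨x, rfl⟩, rfl⟩
        exact ⟨m x, ⟨x, rfl⟩, hc x⟩
    rw [h3, AddSubgroup.index_map_of_injective _ he, mul_comm] at h2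
    exact (Nat.eq_of_mul_eq_mul_right (Nat.pos_of_ne_zero hI) h2).symm
  -- the restriction to the kernel
  let mK : φ.ker →+ φ.ker := (m.comp φ.ker.subtype).codRestrict φ.ker fun x => hkm x x.2
  have h4 : m.range.relIndex φ.ker = mK.range.index := by
    rw [AddSubgroup.relIndex]
    congr 1
    ext ⟨x, hx⟩
    rw [AddSubgroup.mem_addSubgroupOf]
    constructor
    · rintro ⟨y, hy⟩
      have hy' : m y = x := hy
      exact ⟨⟨y, hke y (hy' ▸ hx)⟩, Subtype.ext hy'⟩
    · rintro ⟨⟨y, hy⟩, hyx⟩
      exact ⟨y, congrArg Subtype.val hyx⟩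
  have h5 : mK.range.index = Nat.card mK.ker := AddSubgroup.index_range
  have h6 : Nat.card mK.ker = Nat.card m.ker := by
    refine Nat.card_congr ⟨fun x => ⟨x.1.1, congrArg Subtype.val x.2⟩,
      fun x => ⟨⟨x.1, hke x.1 ?_⟩, ?_⟩, fun x => rfl, fun x => rfl⟩
    · have : m x.1 = 0 := x.2
      rw [this]
      exact zero_mem _
    · exact Subtype.ext x.2
  have h7 := AddSubgroup.relIndex_mul_index (H := m.range) (K := m.range ⊔ φ.ker) le_sup_left
  rw [AddSubgroup.relIndex_sup_left, h4, h5, h6, h1] at h7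
  rw [← h7, mul_comm]

lemma euler_ne_zero {M E : Type*} [AddCommGroup M] [AddCommGroup E] (φ : M →+ E) (m : M →+ M)
    (e : E →+ E) (hc : ∀ x, φ (m x) = e (φ x)) (hI : φ.range.index ≠ 0)
    (hm : m.range.index ≠ 0) : e.range.index ≠ 0 := by
  have h2 : (m.range.map φ).index = (m.range ⊔ φ.ker).index * φ.range.index :=
    AddSubgroup.index_map _ _
  have h4 : m.range.map φ ≤ e.range := by
    rintro _ ⟨_, ⟨x, rfl⟩, rfl⟩
    exact ⟨φ x, (hc x).symm⟩
  have h5 : (m.range ⊔ φ.ker).index ≠ 0 := fun h =>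
    hm (Nat.eq_zero_of_zero_dvd (h ▸ AddSubgroup.index_dvd_of_le le_sup_left))
  intro h
  have h6 := AddSubgroup.index_dvd_of_le h4
  rw [h, h2, zero_dvd_iff] at h6
  exact (mul_ne_zero h5 hI) h6

/-! ### Characteristic ideals -/

variable (p : ℕ) [hp : Fact p.Prime]

/-- `f` generates the characteristic ideal of the `Λ`-module `M`: there is a homomorphism with
finite kernel and finite cokernel from `M` to an elementary module `⊕ Λ / (g i)` with
`f = ∏ g i ≠ 0`. -/
def HasChar (M : Type*) [AddCommGroup M] [Module (Iwasawa p) M] (f : Iwasawa p) : Prop :=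
  f ≠ 0 ∧ ∃ (k : ℕ) (g : Fin k → Iwasawa p)
    (φ : M →ₗ[Iwasawa p] ((i : Fin k) → Iwasawa p ⧸ Ideal.span {g i})),
    Finite (LinearMap.ker φ) ∧
    Finite (((i : Fin k) → Iwasawa p ⧸ Ideal.span {g i}) ⧸ LinearMap.range φ) ∧
    f = ∏ i, g i

/-- The quotient `M / w M`. -/
abbrev Quo (M : Type*) [AddCommGroup M] [Module (Iwasawa p) M] (w : Iwasawa p) : Type _ :=
  M ⧸ LinearMap.range (LinearMap.lsmul (Iwasawa p) M w)

/-- The kernel `M[w]` of the multiplication by `w`. -/
abbrev Ker (M : Type*) [AddCommGroup M] [Module (Iwasawa p) M] (w : Iwasawa p) : Type _ :=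
  LinearMap.ker (LinearMap.lsmul (Iwasawa p) M w)

variable {p}

/-- Multiplication by `w` as an additive map. -/
noncomputable def mw (M : Type*) [AddCommGroup M] [Module (Iwasawa p) M] (w : Iwasawa p) : M →+ M :=
  (LinearMap.lsmul (Iwasawa p) M w).toAddMonoidHom

lemma mw_apply {M : Type*} [AddCommGroup M] [Module (Iwasawa p) M] (w : Iwasawa p) (x : M) :
    mw M w x = w • x := rfl

lemma card_Quo (M : Type*) [AddCommGroup M] [Module (Iwasawa p) M] (w : Iwasawa p) :
    Nat.card (Quo p M w) = (mw M w).range.index := rfl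

lemma card_Ker (M : Type*) [AddCommGroup M] [Module (Iwasawa p) M] (w : Iwasawa p) :
    Nat.card (Ker p M w) = Nat.card (mw M w).ker := rfl

lemma inj_of_finite {D w : Iwasawa p} (hw : ¬ (p : Iwasawa p) ∣ w)
    (hfin : Finite (Iwasawa p ⧸ Ideal.span {D, w})) {x : Iwasawa p} (h : D ∣ w * x) : D ∣ x := by
  have hw0 : w ≠ 0 := by
    rintro rfl
    exact hw (dvd_zero _)
  obtain ⟨y, hy⟩ := h
  have h1 : w ∣ D * y := ⟨x, hy.symm⟩
  obtain ⟨z, rfl⟩ := dvd_of_finite hw hfin h1
  refine ⟨z, mul_left_cancel₀ hw0 ?_⟩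
  rw [hy]
  ring

/-- The index of the multiplication by `w` on a cyclic module. -/
lemma index_cyclic (g w : Iwasawa p) :
    (mw (Iwasawa p ⧸ Ideal.span {g}) w).range.index =
      Nat.card (Iwasawa p ⧸ Ideal.span {g, w}) := by
  have hs : Function.Surjective
      (Ideal.Quotient.mk (Ideal.span {g}) : Iwasawa p →+* _).toAddMonoidHom :=
    Ideal.Quotient.mk_surjective
  rw [← AddSubgroup.index_comap_of_surjective _ hs]
  have h1 : (mw (Iwasawa p ⧸ Ideal.span {g}) w).range.comap
      (Ideal.Quotient.mk (Ideal.span {g}) : Iwasawa p →+* _).toAddMonoidHom =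
      (Ideal.span {g, w}).toAddSubgroup := by
    ext x
    rw [AddSubgroup.mem_comap]
    constructor
    · rintro ⟨y, hy⟩
      obtain ⟨y, rfl⟩ := Ideal.Quotient.mk_surjective y
      have hy' : Ideal.Quotient.mk (Ideal.span {g}) (w * y) =
          Ideal.Quotient.mk (Ideal.span {g}) x := hy
      rw [Ideal.Quotient.eq, Ideal.mem_span_singleton] at hy'
      obtain ⟨c, hc⟩ := hy'
      change x ∈ Ideal.span {g, w}
      rw [Ideal.mem_span_pair]
      exact ⟨-c, y, by linear_combination hc⟩
    · intro hx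
      have hx' : x ∈ Ideal.span {g, w} := hx
      rw [Ideal.mem_span_pair] at hx'
      obtain ⟨a, b, hab⟩ := hx'
      refine ⟨Ideal.Quotient.mk _ b, ?_⟩
      change Ideal.Quotient.mk (Ideal.span {g}) (w * b) = Ideal.Quotient.mk (Ideal.span {g}) x
      rw [Ideal.Quotient.eq, Ideal.mem_span_singleton]
      exact ⟨-a, by linear_combination hab⟩
  rw [h1]
  rfl

/-- The index of the multiplication by `w` on an elementary module. -/
lemma index_elementary {k : ℕ} (g : Fin k → Iwasawa p) (w : Iwasawa p) :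
    (mw ((i : Fin k) → Iwasawa p ⧸ Ideal.span {g i}) w).range.index =
      ∏ i, Nat.card (Iwasawa p ⧸ Ideal.span {g i, w}) := by
  have h1 : LinearMap.range (LinearMap.lsmul (Iwasawa p)
      ((i : Fin k) → Iwasawa p ⧸ Ideal.span {g i}) w) =
      Submodule.pi Set.univ fun i => LinearMap.range (LinearMap.lsmul (Iwasawa p)
        (Iwasawa p ⧸ Ideal.span {g i}) w) := by
    ext x
    rw [Submodule.mem_pi]
    constructor
    · rintro ⟨y, rfl⟩ i -
      exact ⟨y i, rfl⟩
    · intro h
      choose y hy using fun i => h i (Set.mem_univ i)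
      exact ⟨y, funext hy⟩
  rw [← card_Quo, Quo, h1,
    Nat.card_congr (Submodule.quotientPi fun i => LinearMap.range (LinearMap.lsmul (Iwasawa p)
      (Iwasawa p ⧸ Ideal.span {g i}) w)).toEquiv, Nat.card_pi]
  exact Finset.prod_congr rfl fun i _ => index_cyclic (g i) w

lemma card_prod_left {ι : Type*} (S : Finset ι) (g : ι → Iwasawa p) {w : Iwasawa p}
    (hw : ¬ (p : Iwasawa p) ∣ w) (hfin : ∀ i ∈ S, Finite (Iwasawa p ⧸ Ideal.span {g i, w})) :
    Nat.card (Iwasawa p ⧸ Ideal.span {∏ i ∈ S, g i, w}) =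
      ∏ i ∈ S, Nat.card (Iwasawa p ⧸ Ideal.span {g i, w}) := by
  classical
  induction S using Finset.induction_on with
  | empty => rw [Finset.prod_empty, Finset.prod_empty, card_of_isUnit isUnit_one]
  | insert n S hn ih =>
    rw [Finset.prod_insert hn, Finset.prod_insert hn,
      card_mul_left hw (hfin n (Finset.mem_insert_self _ _)),
      ih fun i hi => hfin i (Finset.mem_insert_of_mem hi)]

/-- **The Euler characteristic formula.** -/
theorem card_char {M : Type*} [AddCommGroup M] [Module (Iwasawa p) M] {f w : Iwasawa p}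
    (h : HasChar p M f) (hw : ¬ (p : Iwasawa p) ∣ w) :
    (Finite (Quo p M w) ↔ Finite (Iwasawa p ⧸ Ideal.span {f, w})) ∧
    (Finite (Iwasawa p ⧸ Ideal.span {f, w}) →
      Finite (Ker p M w) ∧
      Nat.card (Quo p M w) =
        Nat.card (Iwasawa p ⧸ Ideal.span {f, w}) * Nat.card (Ker p M w)) := by
  obtain ⟨hf0, k, g, φ, hker, hcok, hf⟩ := h
  set E := (i : Fin k) → Iwasawa p ⧸ Ideal.span {g i} with hE
  have hc : ∀ x, φ.toAddMonoidHom (mw M w x) = mw E w (φ.toAddMonoidHom x) := fun x =>
    map_smul φ w x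
  have hI : φ.toAddMonoidHom.range.index ≠ 0 := by
    have : Finite (E ⧸ φ.toAddMonoidHom.range) := hcok
    exact AddSubgroup.index_ne_zero_of_finite
  have hkerf : Finite φ.toAddMonoidHom.ker := hker
  -- finiteness of the factors
  have hfac : Finite (Iwasawa p ⧸ Ideal.span {f, w}) →
      ∀ i, Finite (Iwasawa p ⧸ Ideal.span {g i, w}) := by
    intro h i
    refine finite_of_le (span_pair_le ?_ dvd_rfl) h
    rw [hf]
    exact Finset.dvd_prod_of_mem g (Finset.mem_univ i)
  have hback : (∀ i, Finite (Iwasawa p ⧸ Ideal.span {g i, w})) →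
      Finite (Iwasawa p ⧸ Ideal.span {f, w}) := by
    intro h
    apply Nat.finite_of_card_ne_zero
    rw [hf, card_prod_left Finset.univ g hw fun i _ => h i]
    exact Finset.prod_ne_zero_iff.2 fun i _ => (Nat.card_pos (α := _)).ne'
  have key : Finite (Iwasawa p ⧸ Ideal.span {f, w}) →
      Finite (Ker p M w) ∧
      Nat.card (Quo p M w) =
        Nat.card (Iwasawa p ⧸ Ideal.span {f, w}) * Nat.card (Ker p M w) := by
    intro hfin
    have hinj : Function.Injective (mw E w) := by
      rw [injective_iff_map_eq_zero]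
      intro x hx
      funext i
      have hxi : w • x i = 0 := congrFun hx i
      obtain ⟨y, hy⟩ := Ideal.Quotient.mk_surjective (x i)
      rw [← hy] at hxi ⊢
      have h1 : Ideal.Quotient.mk (Ideal.span {g i}) (w * y) = 0 := hxi
      rw [Ideal.Quotient.eq_zero_iff_mem, Ideal.mem_span_singleton] at h1
      change Ideal.Quotient.mk (Ideal.span {g i}) y = 0
      rw [Ideal.Quotient.eq_zero_iff_mem, Ideal.mem_span_singleton]
      exact inj_of_finite hw (hfac hfin i) h1
    have h1 := euler φ.toAddMonoidHom (mw M w) (mw E w) hc hinj hkerf hI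
    refine ⟨?_, ?_⟩
    · have h2 : ∀ x : Ker p M w, (x : M) ∈ φ.toAddMonoidHom.ker := by
        intro x
        have h3 : mw M w (x : M) = 0 := x.2
        rw [AddMonoidHom.mem_ker]
        apply hinj
        rw [← hc, h3, map_zero, map_zero]
      exact Finite.of_injective (fun x : Ker p M w => (⟨(x : M), h2 x⟩ : φ.toAddMonoidHom.ker))
        fun x y hxy => by
          have h4 := congrArg (fun z : φ.toAddMonoidHom.ker => (z : M)) hxy
          exact Subtype.ext h4
    · rw [card_Quo, card_Ker, h1, index_elementary, hf,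
        card_prod_left Finset.univ g hw fun i _ => hfac hfin i]
  refine ⟨⟨fun hq => ?_, fun hfin => ?_⟩, key⟩
  · apply hback
    have hm : (mw M w).range.index ≠ 0 := by
      rw [← card_Quo]
      exact Nat.card_pos.ne'
    have h1 := euler_ne_zero φ.toAddMonoidHom (mw M w) (mw E w) hc hI hm
    rw [index_elementary, Finset.prod_ne_zero_iff] at h1
    intro i
    exact Nat.finite_of_card_ne_zero (h1 i (Finset.mem_univ i))
  · obtain ⟨h1, h2⟩ := key hfin
    apply Nat.finite_of_card_ne_zero
    rw [h2]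
    exact mul_ne_zero Nat.card_pos.ne' Nat.card_pos.ne'

end Pool.Agent.H33.IW
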