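import Pool.Agent.H33.IW.TwoSharp

/-!
# Primitive levels and the lambda invariant for all primes
-/

set_option autoImplicit false

namespace Pool.Agent.H33.IW

open PowerSeries Pool.Agent.X308.Iw

/-- `L` is `f` times an element which vanishes to even order at `X = 0` and, for `p = 2`, to even
order at `X = -2` (for odd `p` the element `X + 2` is a unit). -/
def EvenQuot (p : ℕ) [Fact p.Prime] (f L : Iwasawa p) : Prop :=
  ∃ (a b : ℕ) (D : Iwasawa p), L = f * (X ^ (2 * a) * (X + 2) ^ (2 * b) * D) ∧ ¬ X ∣ D ∧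
    (p = 2 → ¬ (X + 2) ∣ D)

/-! ### The prime two -/

lemma even_of_mem_K2 {u w : Iwasawa 2} {m : ℕ} (hu : X * (X + 2) ∣ u - 1) (hw : IsUnit w)
    (h : (-1) ^ m * gi 2 ^ m * iota 2 w - u * w ∈ K2) : Even m := by
  by_contra hodd
  rw [Nat.not_even_iff_odd] at hodd
  rw [hodd.neg_one_pow, neg_one_mul, ← Ideal.Quotient.eq_zero_iff_mem] at h
  rw [map_sub, map_mul, map_mul, map_neg, map_pow, mk_iota] at h
  have h3 : Ideal.Quotient.mk K2 u = 1 := by
    obtain ⟨q, hq⟩ := hu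
    have h4 : u = 1 + X * (X + 2) * q := by rw [← hq]; ring
    rw [h4, map_add, map_mul, map_mul, map_add, map_one, map_ofNat]
    linear_combination Ideal.Quotient.mk K2 q * mk_X_sq +
      Ideal.Quotient.mk K2 q * Ideal.Quotient.mk K2 X * mk_two
  rw [h3] at h
  obtain ⟨t, rfl⟩ := hodd
  rw [pow_succ, pow_mul, mk_gi_sq, one_pow, one_mul, mk_gi] at h
  have h5 : Ideal.Quotient.mk K2 X * Ideal.Quotient.mk K2 w = 0 := by
    linear_combination -h - Ideal.Quotient.mk K2 w * mk_two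
  rw [← map_mul, Ideal.Quotient.eq_zero_iff_mem] at h5
  exact X_notMem ((Ideal.mul_unit_mem_iff_mem K2 hw).1 h5)

lemma gi_add_one : gi 2 + 1 = gi 2 * (X + 2) := by
  linear_combination (-1 : Iwasawa 2) * gi_mul_g 2

lemma X_mul_dvd_pow (b : ℕ) : X * (X + 2) ∣ gi 2 ^ (2 * b) - 1 := by
  have h1 : X * (X + 2) ∣ gi 2 ^ 2 - 1 := by
    refine ⟨- gi 2 * gi 2, ?_⟩
    have h2 := gi_sub_one (p := 2)
    have h3 := gi_add_one
    linear_combination (gi 2 + 1) * h2 - X * gi 2 * h3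
  rw [pow_mul]
  have h2 : gi 2 ^ 2 - 1 ∣ (gi 2 ^ 2) ^ b - 1 ^ b := sub_dvd_pow_sub_pow _ _ b
  rw [one_pow] at h2
  exact h1.trans h2

/-- The sign at both fixed points for a quotient which vanishes to even orders. -/
lemma sign_even {D E u : Iwasawa 2} {a b : ℕ} (hD : D = X ^ (2 * a) * (X + 2) ^ (2 * b) * E)
    (hE1 : ¬ X ∣ E) (hE2 : ¬ (X + 2) ∣ E) (h : iota 2 D = u * D) : X * (X + 2) ∣ u - 1 := by
  -- the functional equation of `E`
  have hX : iota 2 (X ^ (2 * a)) = X ^ (2 * a) * gi 2 ^ (2 * a) := by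
    rw [map_pow, iota_X, gi_sub_one, neg_pow, (even_two_mul a).neg_one_pow, one_mul, mul_pow]
  have hX2 : iota 2 ((X + 2) ^ (2 * b)) = (X + 2) ^ (2 * b) * gi 2 ^ (2 * b) := by
    rw [map_pow, iota_X_add_two, mul_pow, mul_comm]
  have hne : (X : Iwasawa 2) ^ (2 * a) * (X + 2) ^ (2 * b) ≠ 0 := by
    refine mul_ne_zero (pow_ne_zero _ X_ne_zero) (pow_ne_zero _ ?_)
    intro h0
    apply not_two_dvd
    rw [h0]
    exact dvd_zero _
  have h1 : gi 2 ^ (2 * a) * gi 2 ^ (2 * b) * iota 2 E = u * E := by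
    apply mul_left_cancel₀ hne
    rw [hD, map_mul, map_mul, hX, hX2] at h
    linear_combination h
  -- multiply by the inverse units
  set v : Iwasawa 2 := ((1 + X) ^ (2 * a) * (1 + X) ^ (2 * b)) * u with hv
  have hvv : gi 2 ^ (2 * a) * gi 2 ^ (2 * b) * ((1 + X) ^ (2 * a) * (1 + X) ^ (2 * b)) = 1 := by
    have h2 : ∀ m : ℕ, gi 2 ^ m * (1 + X) ^ m = 1 := by
      intro m
      rw [← mul_pow, gi_mul_g, one_pow]
    calc _ = (gi 2 ^ (2 * a) * (1 + X) ^ (2 * a)) * (gi 2 ^ (2 * b) * (1 + X) ^ (2 * b)) := by ring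
      _ = 1 := by rw [h2, h2, one_mul]
  have h2 : iota 2 E = v * E := by
    rw [hv]
    linear_combination ((1 + X) ^ (2 * a) * (1 + X) ^ (2 * b)) * h1 - iota 2 E * hvv
  have hcc : constantCoeff E ≠ 0 := fun h0 => hE1 (X_dvd_iff.2 h0)
  have h3 : X * (X + 2) ∣ v - 1 := by
    refine dvd_both ?_ (dvd_u_sub h2 hE2)
    rw [X_dvd_iff, map_sub, map_one, cc_u_of_cc h2 hcc, sub_self]
  have h4 : u = gi 2 ^ (2 * a) * gi 2 ^ (2 * b) * v := by
    rw [hv]
    linear_combination (-u) * hvv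
  have h5 : u - 1 = (gi 2 ^ (2 * a) - 1) * (gi 2 ^ (2 * b) * v) + (gi 2 ^ (2 * b) - 1) * v +
      (v - 1) := by
    rw [h4]
    ring
  rw [h5]
  exact dvd_add (dvd_add (dvd_mul_of_dvd_left (X_mul_dvd_pow a) _)
    (dvd_mul_of_dvd_left (X_mul_dvd_pow b) _)) h3

variable {p : ℕ} [hp : Fact p.Prime]

/-- The index at a primitive level is an even power of `p`. -/
def EvenLevels (p : ℕ) [Fact p.Prime] (D : Iwasawa p) : Prop :=
  ∀ n : ℕ, (p = 2 → n ≠ 0) → Finite (Iwasawa p ⧸ Ideal.span {D, ph p n}) →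
    ∃ k : ℕ, Nat.card (Iwasawa p ⧸ Ideal.span {D, ph p n}) = p ^ (2 * k)

lemma evenLevels {D E u : Iwasawa p} (hD0 : D ≠ 0) {a b : ℕ}
    (hD : D = X ^ (2 * a) * (X + 2) ^ (2 * b) * E)
    (hE1 : ¬ X ∣ E) (hE2 : p = 2 → ¬ (X + 2) ∣ E) (h : iota p D = u * D) : EvenLevels p D := by
  intro n hn hfin
  by_cases hp2 : p = 2
  · subst hp2
    obtain ⟨k, hk, -⟩ := even_level (hn rfl) h (sign_even hD hE1 (hE2 rfl) h) hfin
    exact ⟨k, hk⟩
  · have hcu : constantCoeff u = 1 := by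
      refine cc_u_of_even h (even_two_mul a) (D1 := (X + 2) ^ (2 * b) * E) ?_ ?_
      · rw [hD, mul_assoc]
      · rw [map_mul, map_pow, map_add, constantCoeff_X, zero_add, two_eq, constantCoeff_C]
        refine mul_ne_zero (pow_ne_zero _ two_ne_zero) ?_
        exact fun h0 => hE1 (X_dvd_iff.2 h0)
    exact card_eq_pow_two hp2 hD0 (ph_ne_zero n) h (iota_ph n) hcu (constantCoeff_gi_pow _) hfin

lemma prod_all {D : Iwasawa p} (hev : EvenLevels p D) (S : Finset ℕ) (hS : p = 2 → 0 ∉ S)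
    (hfin : Finite (Iwasawa p ⧸ Ideal.span {D, ∏ n ∈ S, ph p n})) :
    (∃ k : ℕ, Nat.card (Iwasawa p ⧸ Ideal.span {D, ∏ n ∈ S, ph p n}) = p ^ (2 * k)) ∧
    (¬ IsUnit D → p ^ (2 * S.card) ≤
      Nat.card (Iwasawa p ⧸ Ideal.span {D, ∏ n ∈ S, ph p n})) := by
  classical
  induction S using Finset.induction_on with
  | empty =>
    refine ⟨⟨0, ?_⟩, fun _ => ?_⟩
    · rw [Finset.prod_empty, Set.pair_comm, card_of_isUnit isUnit_one]
      simp
    · simp only [Finset.card_empty, mul_zero, pow_zero]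
      exact Nat.card_pos
  | insert n S hn ih =>
    rw [Finset.prod_insert hn] at hfin ⊢
    have h1 : Finite (Iwasawa p ⧸ Ideal.span {D, ph p n}) :=
      finite_of_le (span_pair_le dvd_rfl (dvd_mul_right _ _)) hfin
    have h2 : Finite (Iwasawa p ⧸ Ideal.span {D, ∏ n ∈ S, ph p n}) :=
      finite_of_le (span_pair_le dvd_rfl (dvd_mul_left _ _)) hfin
    obtain ⟨⟨k, hk⟩, h3⟩ := ih (fun h => fun h0 => hS h (Finset.mem_insert_of_mem h0)) h2
    have hn0 : p = 2 → n ≠ 0 := by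
      rintro h rfl
      exact hS h (Finset.mem_insert_self _ _)
    obtain ⟨j, hj⟩ := hev n hn0 h1
    rw [card_mul_right (not_p_dvd_ph n) h1]
    refine ⟨⟨j + k, ?_⟩, fun hDu => ?_⟩
    · rw [hj, hk, ← pow_add]
      congr 1
      ring
    · rw [Finset.card_insert_of_notMem hn]
      have h4 : p ^ 2 ≤ Nat.card (Iwasawa p ⧸ Ideal.span {D, ph p n}) := by
        have h5 := p_le_card hDu (not_isUnit_ph n) h1
        rw [hj] at h5 ⊢
        have hj0 : j ≠ 0 := by
          rintro rfl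
          have := hp.out.two_le
          simp at h5
          omega
        exact Nat.pow_le_pow_right hp.out.pos (by omega)
      calc p ^ (2 * (S.card + 1)) = p ^ 2 * p ^ (2 * S.card) := by ring
        _ ≤ _ := Nat.mul_le_mul h4 (h3 hDu)

/-- The criterion at primitive levels, all primes. -/
theorem crit_prod_all {f L : Iwasawa p} (hL : L ≠ 0) (hev : EvenQuot p f L)
    (hfun : Ideal.span {f * iota p L} = Ideal.span {L * iota p f}) (S : Finset ℕ)
    (hS : p = 2 → 0 ∉ S)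
    (hfin : Finite (Iwasawa p ⧸ Ideal.span {L, ∏ n ∈ S, ph p n})) :
    (∃ k : ℕ, Nat.card (Iwasawa p ⧸ Ideal.span {L, ∏ n ∈ S, ph p n}) =
      p ^ (2 * k) * Nat.card (Iwasawa p ⧸ Ideal.span {f, ∏ n ∈ S, ph p n})) ∧
    (S.Nonempty → (Ideal.span {f} = Ideal.span {L} ↔
      Nat.card (Iwasawa p ⧸ Ideal.span {L, ∏ n ∈ S, ph p n}) <
        p ^ (2 * S.card) * Nat.card (Iwasawa p ⧸ Ideal.span {f, ∏ n ∈ S, ph p n}))) := by
  obtain ⟨a, b, E, hLE, hE1, hE2⟩ := hev
  set D : Iwasawa p := X ^ (2 * a) * (X + 2) ^ (2 * b) * E with hDdef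
  subst hLE
  have hf : f ≠ 0 := left_ne_zero_of_mul hL
  have hD : D ≠ 0 := right_ne_zero_of_mul hL
  obtain ⟨u, hu⟩ := exists_u hf hfun
  have hlev := evenLevels hD hDdef hE1 hE2 hu
  have hw : ¬ (p : Iwasawa p) ∣ ∏ n ∈ S, ph p n := by
    classical
    rw [← red_eq_zero_iff, map_prod, Finset.prod_eq_zero_iff]
    rintro ⟨n, -, hn⟩
    exact not_p_dvd_ph n (red_eq_zero_iff.1 hn)
  have hf1 : Finite (Iwasawa p ⧸ Ideal.span {f, ∏ n ∈ S, ph p n}) :=
    finite_of_le (span_pair_le (dvd_mul_right _ _) dvd_rfl) hfin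
  have hf2 : Finite (Iwasawa p ⧸ Ideal.span {D, ∏ n ∈ S, ph p n}) :=
    finite_of_le (span_pair_le (dvd_mul_left _ _) dvd_rfl) hfin
  have hpos : 0 < Nat.card (Iwasawa p ⧸ Ideal.span {f, ∏ n ∈ S, ph p n}) := Nat.card_pos
  rw [card_mul_left hw hf1, span_eq_iff_isUnit hf,
    mul_comm (Nat.card (Iwasawa p ⧸ Ideal.span {f, ∏ n ∈ S, ph p n}))]
  obtain ⟨⟨k, hk⟩, hge⟩ := prod_all hlev S hS hf2
  refine ⟨⟨k, by rw [hk]⟩, fun hS => ⟨fun h => ?_, fun h => ?_⟩⟩
  · rw [card_of_isUnit h]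
    refine Nat.mul_lt_mul_of_pos_right (Nat.one_lt_pow ?_ hp.out.one_lt) hpos
    have := Finset.card_pos.2 hS
    omega
  · by_contra hDu
    exact absurd (Nat.mul_le_mul_right _ (hge hDu)) (not_le.2 h)

/-- The lambda invariant is even. -/
lemma even_lambda_all {D E u : Iwasawa p} {a b : ℕ}
    (hD : D = X ^ (2 * a) * (X + 2) ^ (2 * b) * E)
    (hE1 : ¬ X ∣ E) (hE2 : p = 2 → ¬ (X + 2) ∣ E) (h : iota p D = u * D)
    (hpD : ¬ (p : Iwasawa p) ∣ D) : Even (red D).order.toNat := by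
  by_cases hp2 : p = 2
  · subst hp2
    have hu := sign_even hD hE1 (hE2 rfl) h
    have hr : red D ≠ 0 := fun h => hpD (red_eq_zero_iff.1 h)
    set k := (red D).order.toNat with hk
    obtain ⟨e, he⟩ := X_pow_order_dvd (φ := red D)
    rw [← hk] at he
    have hce : constantCoeff e ≠ 0 := by
      intro h0
      apply coeff_order hr
      have h3 := coeff_X_pow_mul e k 0
      rw [zero_add] at h3
      rw [← hk]
      conv_lhs => rw [he]
      rw [h3, coeff_zero_eq_constantCoeff_apply, h0]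
    obtain ⟨w, rfl⟩ : ∃ w : Iwasawa 2, red w = e :=
      PowerSeries.map_surjective _ (ZMod.ringHom_surjective _) e
    have hw : IsUnit w := by
      rw [isUnit_iff_constantCoeff]
      by_contra hn
      have h9 : constantCoeff w ∈ IsLocalRing.maximalIdeal ℤ_[2] := hn
      rw [← PadicInt.ker_toZMod, RingHom.mem_ker, ← cc_red] at h9
      exact hce h9
    obtain ⟨c, hc⟩ : ((2 : ℕ) : Iwasawa 2) ∣ D - X ^ k * w := by
      rw [← red_eq_zero_iff, map_sub, map_mul, map_pow, he]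
      have : red (X : Iwasawa 2) = X := by rw [red, map_X]
      rw [this, sub_self]
    have hD' : D = X ^ k * w + ((2 : ℕ) : Iwasawa 2) * c := by rw [← hc]; ring
    refine even_of_mem_K2 hu hw ?_
    rw [hD', map_add, map_mul, map_mul, map_pow, iota_X, gi_sub_one, map_natCast, neg_pow,
      mul_pow] at h
    have h1 : ((2 : ℕ) : Iwasawa 2) ∣ X ^ k * ((-1) ^ k * gi 2 ^ k * iota 2 w - u * w) :=
      ⟨u * c - iota 2 c, by linear_combination h⟩
    have h2 : ((2 : ℕ) : Iwasawa 2) ∣ (-1) ^ k * gi 2 ^ k * iota 2 w - u * w := by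
      rw [← red_eq_zero_iff] at h1 ⊢
      rw [map_mul, map_pow] at h1
      have hX : red (X : Iwasawa 2) = X := by rw [red, map_X]
      rw [hX] at h1
      exact (mul_eq_zero.1 h1).resolve_left (pow_ne_zero _ X_ne_zero)
    exact Ideal.mem_of_dvd _ h2 (by simpa using two_mem)
  · have hcu : constantCoeff u = 1 := by
      refine cc_u_of_even h (even_two_mul a) (D1 := (X + 2) ^ (2 * b) * E) ?_ ?_
      · rw [hD, mul_assoc]
      · rw [map_mul, map_pow, map_add, constantCoeff_X, zero_add, two_eq, constantCoeff_C]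
        refine mul_ne_zero (pow_ne_zero _ two_ne_zero) ?_
        exact fun h0 => hE1 (X_dvd_iff.2 h0)
    exact even_lambda hp2 hpD h hcu

/-- The criterion with the lambda invariant, all primes. -/
theorem crit_lambda_all {f L : Iwasawa p} (hL : L ≠ 0) (hev : EvenQuot p f L)
    (hfun : Ideal.span {f * iota p L} = Ideal.span {L * iota p f}) (m : ℕ) (f1 L1 : Iwasawa p)
    (h1 : f = (p : Iwasawa p) ^ m * f1) (h2 : L = (p : Iwasawa p) ^ m * L1)
    (hpL : ¬ (p : Iwasawa p) ∣ L1) (hlam : (red L1).order ≤ (red f1).order + 1) :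
    Ideal.span {f} = Ideal.span {L} := by
  obtain ⟨a, b, E, hLE, hE1, hE2⟩ := hev
  set D : Iwasawa p := X ^ (2 * a) * (X + 2) ^ (2 * b) * E with hDdef
  have hf : f ≠ 0 := by
    rintro rfl
    rw [zero_mul] at hLE
    exact hL hLE
  have hfun' := hfun
  rw [hLE] at hfun'
  obtain ⟨u, hu⟩ := exists_u hf hfun'
  have h3 : f1 * D = L1 := by
    apply mul_left_cancel₀ (pow_ne_zero m (p_ne_zero (p := p)))
    rw [← mul_assoc, ← h1, ← h2, ← hLE]
  have hpD : ¬ (p : Iwasawa p) ∣ D := fun h => hpL (h3 ▸ dvd_mul_of_dvd_right h _)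
  have hpf : ¬ (p : Iwasawa p) ∣ f1 := fun h => hpL (h3 ▸ dvd_mul_of_dvd_left h _)
  have hrD : red D ≠ 0 := fun h => hpD (red_eq_zero_iff.1 h)
  have hrf : red f1 ≠ 0 := fun h => hpf (red_eq_zero_iff.1 h)
  rw [← h3, map_mul, order_mul] at hlam
  have h4 : (red D).order ≤ 1 := by
    have h5 := ord_ne_top hrf
    exact (ENat.add_le_add_iff_left h5).1 hlam
  have h5 := even_lambda_all hDdef hE1 hE2 hu hpD
  have h6 : (red D).order.toNat = 0 := by
    have h7 : (red D).order.toNat ≤ 1 := by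
      have := ENat.toNat_le_toNat h4 (by simp)
      simpa using this
    rcases h5 with ⟨r, hr⟩
    omega
  rw [hLE, span_eq_iff_isUnit hf, isUnit_iff_constantCoeff]
  by_contra hn
  have h8 : PadicInt.toZMod (constantCoeff D) = 0 := by
    have h9 : constantCoeff D ∈ IsLocalRing.maximalIdeal ℤ_[p] := hn
    rwa [← PadicInt.ker_toZMod, RingHom.mem_ker] at h9
  have h10 := coeff_order hrD
  rw [h6, coeff_zero_eq_constantCoeff_apply, cc_red, h8] at h10
  exact h10 rfl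

end Pool.Agent.H33.IW
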