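import Pool.Agent.H33.IW.Crit

/-!
# The sharpness of the doubled gap
-/

set_option autoImplicit false

namespace Pool.Agent.H33.IW

open PowerSeries Pool.Agent.X308.Iw

variable {p : ℕ} [hp : Fact p.Prime]

/-- The Eisenstein polynomial `X ^ 2 - p (1 + X)`, stable under the involution. -/
noncomputable def D0 (p : ℕ) [Fact p.Prime] : Iwasawa p :=
  X ^ 2 - (p : Iwasawa p) * (1 + X)

lemma cc_D0 : constantCoeff (D0 p) = - p := by
  rw [D0, map_sub, map_pow, constantCoeff_X, map_mul, map_natCast, map_add, map_one,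
    constantCoeff_X]
  ring

lemma D0_ne_zero : D0 p ≠ 0 := by
  intro h
  have h1 := cc_D0 (p := p)
  rw [h, map_zero] at h1
  exact PadicInt.prime_p.ne_zero (neg_eq_zero.1 h1.symm)

lemma not_isUnit_D0 : ¬ IsUnit (D0 p) := by
  rw [isUnit_iff_constantCoeff, cc_D0, IsUnit.neg_iff]
  exact PadicInt.prime_p.not_isUnit

lemma iota_D0 : iota p (D0 p) = (gi p) ^ 2 * D0 p := by
  have h := g_mul_gi p
  rw [D0, map_sub, map_pow, iota_X, map_mul, map_natCast, iota_g, gi_sub_one]
  linear_combination (p : Iwasawa p) * gi p * h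

lemma exists_digit (c : ℤ_[p]) : ∃ a : Fin p, ∃ d : ℤ_[p], c = ((a : ℕ) : ℤ_[p]) + p * d := by
  obtain ⟨n, hn, hc⟩ := PadicInt.exists_mem_range c
  rw [PadicInt.maximalIdeal_eq_span_p, Ideal.mem_span_singleton] at hc
  obtain ⟨d, hd⟩ := hc
  exact ⟨⟨n, hn⟩, d, by rw [← hd]; ring⟩

lemma exists_X_digit (g : Iwasawa p) :
    ∃ a : Fin p, ∃ d g' : Iwasawa p,
      g = ((a : ℕ) : Iwasawa p) + (p : Iwasawa p) * d + X * g' := by
  obtain ⟨g', hg⟩ : (X : Iwasawa p) ∣ g - C (constantCoeff g) := by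
    rw [X_dvd_iff]
    simp
  obtain ⟨a, d, hd⟩ := exists_digit (constantCoeff g)
  refine ⟨a, C d, g', ?_⟩
  have h1 : (C (constantCoeff g) : Iwasawa p) = ((a : ℕ) : Iwasawa p) + (p : Iwasawa p) * C d := by
    rw [hd, map_add, map_mul, map_natCast, map_natCast]
  rw [← h1, ← hg]
  ring

lemma card_le_one {J : Ideal (Iwasawa p)} (h1 : (p : Iwasawa p) ∈ J) (h2 : (X : Iwasawa p) ∈ J) :
    Finite (Iwasawa p ⧸ J) ∧ Nat.card (Iwasawa p ⧸ J) ≤ p := by
  let F : Fin p → Iwasawa p ⧸ J := fun a => Ideal.Quotient.mk J ((a : ℕ) : Iwasawa p)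
  have hF : Function.Surjective F := by
    intro g
    obtain ⟨g, rfl⟩ := Ideal.Quotient.mk_surjective g
    obtain ⟨a, d, g', rfl⟩ := exists_X_digit g
    refine ⟨a, ?_⟩
    simp only [F]
    rw [Ideal.Quotient.eq]
    have h3 := Ideal.add_mem _ (Ideal.mul_mem_right d _ h1) (Ideal.mul_mem_right g' _ h2)
    have h4 := Ideal.neg_mem_iff _ |>.2 h3
    convert h4 using 1
    ring
  refine ⟨Finite.of_surjective F hF, ?_⟩
  have := Nat.card_le_card_of_surjective F hF
  rwa [Nat.card_eq_fintype_card (α := Fin p), Fintype.card_fin] at this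

lemma card_le_two {J : Ideal (Iwasawa p)} (h1 : (p : Iwasawa p) ∈ J)
    (h2 : (X : Iwasawa p) ^ 2 ∈ J) :
    Finite (Iwasawa p ⧸ J) ∧ Nat.card (Iwasawa p ⧸ J) ≤ p ^ 2 := by
  let F : Fin p × Fin p → Iwasawa p ⧸ J := fun a =>
    Ideal.Quotient.mk J (((a.1 : ℕ) : Iwasawa p) + X * ((a.2 : ℕ) : Iwasawa p))
  have hF : Function.Surjective F := by
    intro g
    obtain ⟨g, rfl⟩ := Ideal.Quotient.mk_surjective g
    obtain ⟨a, d, g', rfl⟩ := exists_X_digit g
    obtain ⟨b, d', g'', rfl⟩ := exists_X_digit g'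
    refine ⟨(a, b), ?_⟩
    simp only [F]
    rw [Ideal.Quotient.eq]
    have h3 := Ideal.add_mem _ (Ideal.mul_mem_right (d + X * d') _ h1)
      (Ideal.mul_mem_right g'' _ h2)
    have h4 := Ideal.neg_mem_iff _ |>.2 h3
    convert h4 using 1
    ring
  refine ⟨Finite.of_surjective F hF, ?_⟩
  have := Nat.card_le_card_of_surjective F hF
  rwa [Nat.card_prod, Nat.card_eq_fintype_card (α := Fin p), Fintype.card_fin, ← sq] at this

lemma om_ne_zero (n : ℕ) : om p n ≠ 0 := by
  intro h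
  apply not_p_dvd_om (p := p) n
  rw [h]
  exact dvd_zero _

/-- The expansion of the cyclotomic element. -/
lemma ph_expand (n : ℕ) : ∃ h : Iwasawa p,
    ph p n = (om p n) ^ (p - 1) + p * (1 + om p n * h) := by
  have hp2 := hp.out.two_le
  set y := om p n with hy
  have h1 : y * ph p n = (y + 1) ^ p - 1 := by
    rw [hy, ← om_succ, om, om, pow_succ, pow_mul]
    ring
  have h2 := add_pow_prime_eq hp.out y (1 : Iwasawa p)
  have hmem : 1 ∈ Finset.Ioo 0 p := by
    rw [Finset.mem_Ioo]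
    omega
  rw [← Finset.add_sum_erase _ _ hmem] at h2
  obtain ⟨h, hh⟩ : y ∣ ∑ x ∈ (Finset.Ioo 0 p).erase 1,
      y ^ (x - 1) * 1 ^ (p - x - 1) * ((p.choose x / p : ℕ) : Iwasawa p) := by
    refine Finset.dvd_sum fun x hx => ?_
    rw [Finset.mem_erase, Finset.mem_Ioo] at hx
    rw [mul_assoc]
    exact dvd_mul_of_dvd_left (dvd_pow_self _ (by omega)) _
  refine ⟨h, ?_⟩
  apply mul_left_cancel₀ (om_ne_zero (p := p) n)
  rw [← hy, h1, h2, hh, Nat.choose_one_right, Nat.div_self hp.out.pos, one_pow, one_pow,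
    Nat.sub_self, pow_zero]
  obtain ⟨q, hq⟩ : ∃ q, p = q + 1 := ⟨p - 1, by omega⟩
  have h3 : y ^ p = y * y ^ (p - 1) := by
    rw [← pow_succ']
    congr 1
    omega
  rw [h3]
  push_cast
  ring

lemma p_mem_aux {n : ℕ} {s : Iwasawa p} (hs : ¬ IsUnit s)
    (h : (om p n) ^ (p - 1) = X ^ 2 * s) : (p : Iwasawa p) ∈ Ideal.span {D0 p, ph p n} := by
  obtain ⟨k, hk⟩ := ph_expand (p := p) n
  have homn : om p n ∈ maxIdeal p :=
    Ideal.mem_of_dvd _ (X_dvd_om n) (Ideal.subset_span (by simp))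
  set v : Iwasawa p := 1 + (om p n * k + (1 + X) * s) with hv
  have hvu : IsUnit v := by
    by_contra hn
    have h1 := mem_maxIdeal hn
    have h2 : om p n * k + (1 + X) * s ∈ maxIdeal p :=
      Ideal.add_mem _ (Ideal.mul_mem_right _ _ homn) (Ideal.mul_mem_left _ _ (mem_maxIdeal hs))
    have h3 : (1 : Iwasawa p) ∈ maxIdeal p := by
      have := Ideal.sub_mem _ h1 h2
      rw [hv] at this
      convert this using 1
      ring
    exact not_isUnit_of_mem h3 isUnit_one
  obtain ⟨v', hv'⟩ := hvu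
  have h1 : ph p n - D0 p * s = (p : Iwasawa p) * v := by
    rw [hk, h, hv, D0]
    ring
  have h2 : (p : Iwasawa p) = ((v'⁻¹ : (Iwasawa p)ˣ) : Iwasawa p) * (ph p n - D0 p * s) := by
    rw [h1, ← hv', mul_comm, mul_assoc, Units.mul_inv, mul_one]
  have h3 : ph p n - D0 p * s ∈ Ideal.span {D0 p, ph p n} :=
    Ideal.sub_mem _ (Ideal.subset_span (by simp))
      (Ideal.mul_mem_right _ _ (Ideal.subset_span (by simp)))
  rw [h2]
  exact Ideal.mul_mem_left _ _ h3

lemma p_mem (hp2 : p ≠ 2) (n : ℕ) : (p : Iwasawa p) ∈ Ideal.span {D0 p, ph p n} := by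
  have h2 := hp.out.two_le
  obtain ⟨t, ht⟩ := X_dvd_om (p := p) n
  obtain ⟨q, hq⟩ : ∃ q, p - 1 = q + 2 := ⟨p - 3, by omega⟩
  have hpow : (om p n) ^ (p - 1) = X ^ 2 * (X ^ q * t ^ (p - 1)) := by
    rw [ht, mul_pow]
    conv_lhs => rw [hq]
    rw [hq, pow_add X q 2]
    ring
  by_cases hn : n = 0
  · by_cases h3 : p = 3
    · subst h3
      subst hn
      have h1 : ph 3 0 - D0 3 = ((3 : ℕ) : Iwasawa 3) * (2 * (1 + X)) := by
        rw [ph, D0]
        simp only [Finset.sum_range_succ, Finset.sum_range_zero, pow_zero, pow_one, zero_add]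
        push_cast
        ring
      have hu : IsUnit ((2 : Iwasawa 3) * (1 + X)) := by
        refine isUnit_of_cc_two (by norm_num) ?_
        rw [map_mul, two_eq, constantCoeff_C, map_add, map_one, constantCoeff_X, add_zero, mul_one]
      obtain ⟨v', hv'⟩ := hu
      have h4 : ((3 : ℕ) : Iwasawa 3) = ((v'⁻¹ : (Iwasawa 3)ˣ) : Iwasawa 3) * (ph 3 0 - D0 3) := by
        rw [h1, ← hv', mul_comm, mul_assoc, Units.mul_inv, mul_one]
      rw [h4]
      exact Ideal.mul_mem_left _ _ (Ideal.sub_mem _ (Ideal.subset_span (by simp))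
        (Ideal.subset_span (by simp)))
    · refine p_mem_aux ?_ hpow
      have hq0 : q ≠ 0 := by omega
      rw [isUnit_iff_constantCoeff, map_mul, map_pow, constantCoeff_X, zero_pow hq0, zero_mul]
      exact not_isUnit_zero
  · obtain ⟨m, rfl⟩ := Nat.exists_eq_succ_of_ne_zero hn
    refine p_mem_aux ?_ hpow
    obtain ⟨t', ht'⟩ := X_dvd_om (p := p) m
    have ht2 : t = t' * ph p m := by
      apply mul_left_cancel₀ (X_ne_zero (R := ℤ_[p]))
      rw [← ht, Nat.succ_eq_add_one, om_succ, ht', mul_assoc]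
    intro hu
    have h1 := isUnit_of_mul_isUnit_right hu
    rw [isUnit_pow_iff (by omega), ht2] at h1
    exact not_isUnit_ph m (isUnit_of_mul_isUnit_right h1)

lemma X_sq_mem {J : Ideal (Iwasawa p)} (h1 : D0 p ∈ J) (h2 : (p : Iwasawa p) ∈ J) :
    (X : Iwasawa p) ^ 2 ∈ J := by
  have : (X : Iwasawa p) ^ 2 = D0 p + (p : Iwasawa p) * (1 + X) := by
    rw [D0]
    ring
  rw [this]
  exact Ideal.add_mem _ h1 (Ideal.mul_mem_right _ _ h2)

/-- The exact index at a primitive level. -/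
lemma card_D0_ph (hp2 : p ≠ 2) (n : ℕ) :
    Nat.card (Iwasawa p ⧸ Ideal.span {D0 p, ph p n}) = p ^ 2 := by
  obtain ⟨hfin, hle⟩ := card_le_two (p_mem hp2 n)
    (X_sq_mem (Ideal.subset_span (by simp)) (p_mem hp2 n))
  refine le_antisymm hle ?_
  exact sq_le_card hp2 D0_ne_zero (ph_ne_zero n) iota_D0 (iota_ph n) (constantCoeff_gi_pow _)
    (constantCoeff_gi_pow _) hfin not_isUnit_D0 (not_isUnit_ph n)

/-- The exact index at a full level. -/
lemma card_D0_om (hp2 : p ≠ 2) (n : ℕ) :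
    Nat.card (Iwasawa p ⧸ Ideal.span {D0 p, om p n}) = p ^ (2 * n + 1) := by
  induction n with
  | zero =>
    have hX : (X : Iwasawa p) ∈ Ideal.span {D0 p, om p 0} := by
      rw [om_zero]
      exact Ideal.subset_span (by simp)
    have hpm : (p : Iwasawa p) ∈ Ideal.span {D0 p, om p 0} := by
      have h1 : (p : Iwasawa p) = X * (X - (p : Iwasawa p)) - D0 p := by
        rw [D0]
        ring
      have h3 : X * (X - (p : Iwasawa p)) - D0 p ∈ Ideal.span {D0 p, om p 0} :=
        Ideal.sub_mem _ (Ideal.mul_mem_right _ _ hX) (Ideal.subset_span (by simp))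
      rwa [← h1] at h3
    obtain ⟨hfin, hle⟩ := card_le_one hpm hX
    rw [mul_zero, zero_add, pow_one]
    refine le_antisymm hle (p_le_card not_isUnit_D0 ?_ hfin)
    rw [om_zero]
    exact not_isUnit_of_mem (Ideal.subset_span (by simp))
  | succ n ih =>
    have hfin : Finite (Iwasawa p ⧸ Ideal.span {D0 p, om p n}) := by
      apply Nat.finite_of_card_ne_zero
      rw [ih]
      exact pow_ne_zero _ hp.out.ne_zero
    rw [om_succ, card_mul_right (not_p_dvd_om n) hfin, ih, card_D0_ph hp2]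
    ring

lemma card_D0_prod (hp2 : p ≠ 2) (S : Finset ℕ) :
    Nat.card (Iwasawa p ⧸ Ideal.span {D0 p, ∏ n ∈ S, ph p n}) = p ^ (2 * S.card) := by
  classical
  induction S using Finset.induction_on with
  | empty =>
    rw [Finset.prod_empty, Set.pair_comm, card_of_isUnit isUnit_one]
    simp
  | insert n S hn ih =>
    have hfin : Finite (Iwasawa p ⧸ Ideal.span {D0 p, ph p n}) := by
      apply Nat.finite_of_card_ne_zero
      rw [card_D0_ph hp2]
      exact pow_ne_zero _ hp.out.ne_zero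
    rw [Finset.prod_insert hn, card_mul_right (not_p_dvd_ph n) hfin, ih, card_D0_ph hp2,
      Finset.card_insert_of_notMem hn]
    ring

end Pool.Agent.H33.IW
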