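import Pool.Agent.H33.IW.Fin

/-!
# Twisted levels
-/

set_option autoImplicit false

namespace Pool.Agent.H33.IW

open PowerSeries Pool.Agent.X308.Iw

variable {p : ℕ} [hp : Fact p.Prime]

lemma mem_of_red' {g : Iwasawa p} {k : ℕ} (h : (X : PowerSeries (ZMod p)) ^ k ∣ red g) :
    g ∈ Ideal.span {(X : Iwasawa p) ^ k, (p : Iwasawa p)} := by
  obtain ⟨e, he⟩ := h
  obtain ⟨E, rfl⟩ : ∃ E : Iwasawa p, red E = e :=
    PowerSeries.map_surjective _ (ZMod.ringHom_surjective _) e
  obtain ⟨a, ha⟩ : (p : Iwasawa p) ∣ g - X ^ k * E := by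
    rw [← red_eq_zero_iff, map_sub, map_mul, map_pow, he]
    have : red (X : Iwasawa p) = X := by rw [red, map_X]
    rw [this, sub_self]
  rw [Ideal.mem_span_pair]
  exact ⟨E, a, by linear_combination -ha⟩

/-- An even nonunit lies in the ideal `(p, X ^ 2)`. -/
lemma mem_sq {D E u : Iwasawa p} {a b : ℕ}
    (hD : D = X ^ (2 * a) * (X + 2) ^ (2 * b) * E)
    (hE1 : ¬ X ∣ E) (hE2 : p = 2 → ¬ (X + 2) ∣ E) (h : iota p D = u * D) (hDu : ¬ IsUnit D) :
    D ∈ Ideal.span {(X : Iwasawa p) ^ 2, (p : Iwasawa p)} := by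
  by_cases hpD : (p : Iwasawa p) ∣ D
  · exact Ideal.mem_of_dvd _ hpD (Ideal.subset_span (by simp))
  · apply mem_of_red'
    have hev := even_lambda_all hD hE1 hE2 h hpD
    have hr : red D ≠ 0 := fun h => hpD (red_eq_zero_iff.1 h)
    have h0 : (red D).order.toNat ≠ 0 := by
      intro h0
      have h10 := coeff_order hr
      rw [h0, coeff_zero_eq_constantCoeff_apply, cc_red] at h10
      apply h10
      have h9 : constantCoeff D ∈ IsLocalRing.maximalIdeal ℤ_[p] := by
        rw [isUnit_iff_constantCoeff] at hDu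
        exact hDu
      rwa [← PadicInt.ker_toZMod, RingHom.mem_ker] at h9
    have h2 : 2 ≤ (red D).order.toNat := by
      rcases hev with ⟨r, hr⟩
      omega
    exact (pow_dvd_pow _ h2).trans X_pow_order_dvd

/-- The twisted cyclotomic element. -/
noncomputable def phc (p : ℕ) [Fact p.Prime] (c : ℤ_[p]) (n : ℕ) : Iwasawa p :=
  ∑ i ∈ Finset.range p, ((1 + X) ^ (p ^ n)) ^ i * (C c ^ (p ^ n)) ^ (p - 1 - i)

lemma omega_succ (c : ℤ_[p]) (n : ℕ) : omega p c (n + 1) = omega p c n * phc p c n := by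
  rw [mul_comm, omega, omega, phc, geom_sum₂_mul, ← pow_mul, ← pow_succ, ← pow_mul, ← pow_succ]

lemma red_omega {c : ℤ_[p]} (hc : (p : ℤ_[p]) ∣ c - 1) (n : ℕ) :
    red (omega p c n) = (X : PowerSeries (ZMod p)) ^ (p ^ n) := by
  have h1 : PadicInt.toZMod c = 1 := by
    have h2 : c - 1 ∈ RingHom.ker (PadicInt.toZMod : ℤ_[p] →+* ZMod p) := by
      rw [PadicInt.ker_toZMod, PadicInt.maximalIdeal_eq_span_p, Ideal.mem_span_singleton]
      exact hc
    rw [RingHom.mem_ker, map_sub, map_one, sub_eq_zero] at h2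
    exact h2
  have hchar : CharP (PowerSeries (ZMod p)) p := by
    refine charP_of_injective_ringHom (f := (C : ZMod p →+* PowerSeries (ZMod p))) ?_ p
    exact C_injective
  rw [omega, map_sub, map_pow, map_add, map_one, map_pow, red, map_X, map_C, h1, map_one,
    add_pow_char_pow, one_pow, add_sub_cancel_left]

lemma red_phc {c : ℤ_[p]} (hc : (p : ℤ_[p]) ∣ c - 1) (n : ℕ) :
    red (phc p c n) = (X : PowerSeries (ZMod p)) ^ (p ^ n * (p - 1)) := by
  have h1 := congrArg red (omega_succ (p := p) c n)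
  rw [map_mul, red_omega hc, red_omega hc] at h1
  have hp1 := hp.out.one_lt
  have h2 : p ^ (n + 1) = p ^ n + p ^ n * (p - 1) := by
    obtain ⟨q, rfl⟩ : ∃ q, p = q + 1 := ⟨p - 1, by omega⟩
    rw [Nat.add_sub_cancel]
    ring
  rw [h2, pow_add] at h1
  exact (mul_left_cancel₀ (pow_ne_zero _ X_ne_zero) h1).symm

lemma not_p_dvd_phc {c : ℤ_[p]} (hc : (p : ℤ_[p]) ∣ c - 1) (n : ℕ) :
    ¬ (p : Iwasawa p) ∣ phc p c n := by
  rw [← red_eq_zero_iff, red_phc hc]
  exact pow_ne_zero _ X_ne_zero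

lemma not_isUnit_phc {c : ℤ_[p]} (hc : (p : ℤ_[p]) ∣ c - 1) (n : ℕ) :
    ¬ IsUnit (phc p c n) := by
  intro h
  have h1 : IsUnit (red (phc p c n)) := h.map red
  rw [red_phc hc, isUnit_iff_constantCoeff, map_pow, constantCoeff_X] at h1
  have hp1 := hp.out.one_lt
  rw [zero_pow (Nat.mul_ne_zero (pow_ne_zero _ hp.out.ne_zero) (by omega))] at h1
  exact not_isUnit_zero h1

/-- The exponent at the twisted levels. -/
def twExp (p n : ℕ) : ℕ := if p = 2 then max (2 * n) 1 else 2 * n + 1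

lemma twExp_pos (p n : ℕ) : twExp p n ≠ 0 := by
  unfold twExp
  split_ifs <;> omega

/-- The gap at the twisted levels. -/
lemma gap_twist {D : Iwasawa p} (hD : D ∈ Ideal.span {(X : Iwasawa p) ^ 2, (p : Iwasawa p)})
    (hDu : ¬ IsUnit D) {c : ℤ_[p]} (hc : (p : ℤ_[p]) ∣ c - 1) (n : ℕ)
    (hfin : Finite (Iwasawa p ⧸ Ideal.span {D, omega p c n})) :
    p ^ (twExp p n) ≤ Nat.card (Iwasawa p ⧸ Ideal.span {D, omega p c n}) := by
  have hp2 := hp.out.two_le
  have hom0 : ¬ IsUnit (omega p c 0) := by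
    intro h
    have h1 : IsUnit (red (omega p c 0)) := h.map red
    rw [red_omega hc, isUnit_iff_constantCoeff, map_pow, constantCoeff_X,
      zero_pow (pow_ne_zero _ hp.out.ne_zero)] at h1
    exact not_isUnit_zero h1
  induction n with
  | zero =>
    have h1 : twExp p 0 = 1 := by
      unfold twExp
      split_ifs <;> simp
    rw [h1, pow_one]
    exact p_le_card hDu hom0 hfin
  | succ n ih =>
    rw [omega_succ] at hfin ⊢
    have h1 : Finite (Iwasawa p ⧸ Ideal.span {D, omega p c n}) :=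
      finite_of_le (span_pair_le dvd_rfl (dvd_mul_right _ _)) hfin
    have h2 : Finite (Iwasawa p ⧸ Ideal.span {D, phc p c n}) :=
      finite_of_le (span_pair_le dvd_rfl (dvd_mul_left _ _)) hfin
    rw [card_mul_right (not_dvd_omega hc n) h1]
    by_cases h0 : p = 2 ∧ n = 0
    · obtain ⟨h3, rfl⟩ := h0
      have h4 : twExp p (0 + 1) = 1 + 1 := by
        rw [twExp, if_pos h3]
        norm_num
      rw [h4, pow_add, pow_one]
      refine Nat.mul_le_mul (p_le_card hDu hom0 h1) (p_le_card hDu (not_isUnit_phc hc 0) h2)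
    · have h4 : twExp p (n + 1) = twExp p n + 2 := by
        unfold twExp
        split_ifs with h5
        · have : n ≠ 0 := fun h => h0 ⟨h5, h⟩
          omega
        · omega
      rw [h4, pow_add]
      refine Nat.mul_le_mul (ih h1) ?_
      rw [← card_X_pow_p (p := p) 2]
      refine card_le_of_mem h2 hD (mem_of_red' ?_)
      rw [red_phc hc]
      refine pow_dvd_pow _ ?_
      rcases Nat.lt_or_ge 2 p with h3 | h3
      · calc 2 ≤ 1 * (p - 1) := by omega
          _ ≤ _ := Nat.mul_le_mul_right _ (Nat.one_le_pow _ _ hp.out.pos)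
      · have h5 : p = 2 := by omega
        have h6 : n ≠ 0 := fun h => h0 ⟨h5, h⟩
        subst h5
        obtain ⟨m, rfl⟩ := Nat.exists_eq_succ_of_ne_zero h6
        calc 2 = 2 * 1 * (2 - 1) := by norm_num
          _ ≤ _ := by
            rw [pow_succ']
            exact Nat.mul_le_mul_right _ (Nat.mul_le_mul_left _ (Nat.one_le_pow _ _ (by norm_num)))

/-- The criterion at the twisted levels. -/
theorem crit_twist {f L : Iwasawa p} (hL : L ≠ 0) (hev : EvenQuot p f L)
    (hfun : Ideal.span {f * iota p L} = Ideal.span {L * iota p f}) {c : ℤ_[p]}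
    (hc : (p : ℤ_[p]) ∣ c - 1) (n : ℕ)
    (hfin : Finite (Iwasawa p ⧸ Ideal.span {L, omega p c n})) :
    Ideal.span {f} = Ideal.span {L} ↔
      Nat.card (Iwasawa p ⧸ Ideal.span {L, omega p c n}) <
        p ^ (twExp p n) * Nat.card (Iwasawa p ⧸ Ideal.span {f, omega p c n}) := by
  obtain ⟨a, b, E, hLE, hE1, hE2⟩ := hev
  set D : Iwasawa p := X ^ (2 * a) * (X + 2) ^ (2 * b) * E with hDdef
  subst hLE
  have hf : f ≠ 0 := left_ne_zero_of_mul hL
  obtain ⟨u, hu⟩ := exists_u hf hfun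
  have hf1 : Finite (Iwasawa p ⧸ Ideal.span {f, omega p c n}) :=
    finite_of_le (span_pair_le (dvd_mul_right _ _) dvd_rfl) hfin
  have hf2 : Finite (Iwasawa p ⧸ Ideal.span {D, omega p c n}) :=
    finite_of_le (span_pair_le (dvd_mul_left _ _) dvd_rfl) hfin
  have hpos : 0 < Nat.card (Iwasawa p ⧸ Ideal.span {f, omega p c n}) := Nat.card_pos
  rw [card_mul_left (not_dvd_omega hc n) hf1, span_eq_iff_isUnit hf,
    mul_comm (Nat.card (Iwasawa p ⧸ Ideal.span {f, omega p c n}))]
  constructor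
  · intro h
    rw [card_of_isUnit h]
    exact Nat.mul_lt_mul_of_pos_right (Nat.one_lt_pow (twExp_pos p n) hp.out.one_lt) hpos
  · intro h
    by_contra hDu
    have h1 := gap_twist (mem_sq hDdef hE1 hE2 hu hDu) hDu hc n hf2
    exact absurd (Nat.mul_le_mul_right _ h1) (not_le.2 h)

end Pool.Agent.H33.IW
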