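import Pool.Agent.H33.IW.Sharp
import Mathlib.RingTheory.PowerSeries.WeierstrassPreparation

/-!
# The prime two
-/

set_option autoImplicit false

namespace Pool.Agent.H33.IW

open PowerSeries Pool.Agent.X308.Iw

section General

variable {p : ℕ} [hp : Fact p.Prime]

lemma ph_eq (n : ℕ) : ∃ c : Iwasawa p, ph p n = (p : Iwasawa p) + X * c := by
  obtain ⟨c, hc⟩ : (X : Iwasawa p) ∣ ph p n - (p : Iwasawa p) := by
    rw [X_dvd_iff, map_sub, constantCoeff_ph, map_natCast, sub_self]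
  exact ⟨c, by rw [← hc]; ring⟩

lemma card_X_ph (n : ℕ) : Finite (Iwasawa p ⧸ Ideal.span {X, ph p n}) ∧
    Nat.card (Iwasawa p ⧸ Ideal.span {X, ph p n}) = p := by
  obtain ⟨c, hc⟩ := ph_eq (p := p) n
  have hX : (X : Iwasawa p) ∈ Ideal.span {X, ph p n} := Ideal.subset_span (by simp)
  have hpm : (p : Iwasawa p) ∈ Ideal.span {X, ph p n} := by
    have h1 : (p : Iwasawa p) = ph p n - X * c := by rw [hc]; ring
    have h2 : ph p n - X * c ∈ Ideal.span {X, ph p n} :=
      Ideal.sub_mem _ (Ideal.subset_span (by simp)) (Ideal.mul_mem_right _ _ hX)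
    rwa [← h1] at h2
  obtain ⟨hfin, hle⟩ := card_le_one hpm hX
  exact ⟨hfin, le_antisymm hle (p_le_card (not_isUnit_of_mem (Ideal.subset_span (by simp)))
    (not_isUnit_ph n) hfin)⟩

/-- The local form of an element at a primitive level. -/
lemma loc (n : ℕ) (N : ℕ) : ∀ D : Iwasawa p, Finite (Iwasawa p ⧸ Ideal.span {D, ph p n}) →
    Nat.card (Iwasawa p ⧸ Ideal.span {D, ph p n}) ≤ N →
    ∃ (m : ℕ) (w a : Iwasawa p), IsUnit w ∧ D = X ^ m * w + ph p n * a ∧
      Nat.card (Iwasawa p ⧸ Ideal.span {D, ph p n}) = p ^ m := by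
  induction N with
  | zero =>
    intro D hfin hcard
    have : 0 < Nat.card (Iwasawa p ⧸ Ideal.span {D, ph p n}) := Nat.card_pos
    omega
  | succ N ih =>
    intro D hfin hcard
    by_cases hD : IsUnit D
    · exact ⟨0, D, 0, hD, by ring, by rw [card_of_isUnit hD, pow_zero]⟩
    · obtain ⟨c, hc⟩ := ph_eq (p := p) n
      have h1 := mem_maxIdeal hD
      rw [maxIdeal, Ideal.mem_span_pair] at h1
      obtain ⟨a, b, hab⟩ := h1
      set D1 : Iwasawa p := b - c * a with hD1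
      have h2 : D = X * D1 + ph p n * a := by
        rw [← hab, hD1, hc]
        ring
      have h3 : Ideal.span {D, ph p n} = Ideal.span {X * D1, ph p n} := by
        rw [Set.pair_comm D, Set.pair_comm (X * D1), h2, mul_comm (ph p n) a]
        exact Ideal.span_pair_add_mul_left (ph p n) (X * D1) a
      obtain ⟨hfX, hcX⟩ := card_X_ph (p := p) n
      have h4 := card_mul_left (D := D1) (not_p_dvd_ph (p := p) n) hfX
      rw [← h3, hcX] at h4
      have hfin1 : Finite (Iwasawa p ⧸ Ideal.span {D1, ph p n}) := by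
        rw [h3] at hfin
        exact finite_of_le (span_pair_le (dvd_mul_left _ _) dvd_rfl) hfin
      have hpos : 0 < Nat.card (Iwasawa p ⧸ Ideal.span {D1, ph p n}) := Nat.card_pos
      have hp2 := hp.out.two_le
      obtain ⟨m, w, a', hw, h5, h6⟩ := ih D1 hfin1 (by nlinarith)
      refine ⟨m + 1, w, X * a' + a, hw, ?_, ?_⟩
      · rw [h2]
        conv_lhs => rw [h5]
        ring
      · rw [h4, h6]
        ring

lemma isUnit_of_common {w D W : Iwasawa p} (hw : ¬ (p : Iwasawa p) ∣ w) (h1 : w ∣ D)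
    (h2 : w ∣ W) (hfin : Finite (Iwasawa p ⧸ Ideal.span {D, W})) : IsUnit w := by
  obtain ⟨N, hN⟩ := exists_pow_mem hfin
  rw [Ideal.mem_span_pair] at hN
  obtain ⟨a, b, hab⟩ := hN
  have h3 : w ∣ (p : Iwasawa p) ^ N * 1 := by
    rw [mul_one, ← hab]
    exact dvd_add (dvd_mul_of_dvd_right h1 _) (dvd_mul_of_dvd_right h2 _)
  exact isUnit_of_dvd_one (dvd_of_dvd_pow_mul hw N h3)

lemma dvd_of_ph_dvd_X_pow (n m : ℕ) {y : Iwasawa p} (h : ph p n ∣ X ^ m * y) : ph p n ∣ y := by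
  induction m with
  | zero => simpa using h
  | succ m ih =>
    apply ih
    refine dvd_of_finite (f := X) (not_p_dvd_ph n) (card_X_ph n).1 ?_
    rw [← mul_assoc, ← pow_succ']
    exact h

lemma card_le_of_mem {D W : Iwasawa p} {J : Ideal (Iwasawa p)}
    (hfin : Finite (Iwasawa p ⧸ Ideal.span {D, W})) (h1 : D ∈ J) (h2 : W ∈ J) :
    Nat.card (Iwasawa p ⧸ J) ≤ Nat.card (Iwasawa p ⧸ Ideal.span {D, W}) := by
  have hle : Ideal.span {D, W} ≤ J := by
    rw [Ideal.span_le]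
    rintro x (rfl | rfl)
    · exact h1
    · exact h2
  exact Nat.card_le_card_of_surjective _ (Ideal.Quotient.factor_surjective hle)

lemma card_X_pow_p (k : ℕ) :
    Nat.card (Iwasawa p ⧸ Ideal.span {X ^ k, (p : Iwasawa p)}) = p ^ k := by
  induction k with
  | zero => rw [pow_zero, card_of_isUnit isUnit_one, pow_zero]
  | succ k ih =>
    rw [pow_succ' X k, card_mul, ih]
    · obtain ⟨hfin, hle⟩ := card_le_one (J := Ideal.span {X, (p : Iwasawa p)})
        (Ideal.subset_span (by simp)) (Ideal.subset_span (by simp))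
      have hge : p ≤ Nat.card (Iwasawa p ⧸ Ideal.span {X, (p : Iwasawa p)}) := by
        refine p_le_card (not_isUnit_of_mem (Ideal.subset_span (by simp)))
          (not_isUnit_of_mem (Ideal.subset_span (by simp))) hfin
      rw [le_antisymm hle hge, pow_succ']
    · intro x hx
      rw [← red_eq_zero_iff] at hx ⊢
      rw [map_mul, red, map_X] at hx
      exact (mul_eq_zero.1 hx).resolve_left X_ne_zero

lemma card_p_sq {w : Iwasawa p} (hw : ¬ (p : Iwasawa p) ∣ w) :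
    Nat.card (Iwasawa p ⧸ Ideal.span {(p : Iwasawa p) * p, w}) =
      Nat.card (Iwasawa p ⧸ Ideal.span {(p : Iwasawa p), w}) ^ 2 := by
  rw [card_mul, sq]
  intro x hx
  refine dvd_of_dvd_pow_mul hw 1 ?_
  rwa [pow_one]

end General

/-! ### The prime two -/

/-- The ideal `(2, X ^ 2)`. -/
noncomputable def K2 : Ideal (Iwasawa 2) := Ideal.span {(2 : Iwasawa 2), X ^ 2}

lemma two_mem : (2 : Iwasawa 2) ∈ K2 := Ideal.subset_span (by simp)

lemma X2_mem : (X : Iwasawa 2) ^ 2 ∈ K2 := Ideal.subset_span (by simp)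

lemma X_notMem : (X : Iwasawa 2) ∉ K2 := by
  intro h
  rw [K2, Ideal.mem_span_pair] at h
  obtain ⟨a, b, hab⟩ := h
  have h1 : red (2 : Iwasawa 2) = 0 := by
    rw [red_eq_zero_iff]
    simp
  have h2 := congrArg red hab
  rw [map_add, map_mul, map_mul, h1, mul_zero, zero_add, map_pow, red, map_X] at h2
  have h3 := congrArg (coeff 1) h2
  rw [coeff_one_X, mul_comm, coeff_X_pow_mul'] at h3
  simp at h3

lemma mk_two : (2 : Iwasawa 2 ⧸ K2) = 0 := by
  have := Ideal.Quotient.eq_zero_iff_mem.2 two_mem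
  rwa [map_ofNat] at this

lemma mk_X_sq : (Ideal.Quotient.mk K2 X) ^ 2 = 0 := by
  rw [← map_pow]
  exact Ideal.Quotient.eq_zero_iff_mem.2 X2_mem

lemma mk_gi : Ideal.Quotient.mk K2 (gi 2) = 1 + Ideal.Quotient.mk K2 X := by
  have h1 := congrArg (Ideal.Quotient.mk K2) (gi_mul_g 2)
  rw [map_mul, map_add, map_one] at h1
  have h2 := mk_two
  have h3 := mk_X_sq
  linear_combination (1 + Ideal.Quotient.mk K2 X) * h1 -
    (Ideal.Quotient.mk K2 (gi 2)) * h3 -
    (Ideal.Quotient.mk K2 (gi 2)) * (Ideal.Quotient.mk K2 X) * h2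

lemma mk_gi_sq : (Ideal.Quotient.mk K2 (gi 2)) ^ 2 = 1 := by
  rw [mk_gi]
  linear_combination mk_X_sq + Ideal.Quotient.mk K2 X * mk_two

lemma exists_two_terms {p : ℕ} [Fact p.Prime] (g : Iwasawa p) :
    ∃ (a b : ℤ_[p]) (h : Iwasawa p), g = C a + X * C b + X ^ 2 * h := by
  obtain ⟨g', hg⟩ : (X : Iwasawa p) ∣ g - C (constantCoeff g) := by
    rw [X_dvd_iff]
    simp
  obtain ⟨g'', hg'⟩ : (X : Iwasawa p) ∣ g' - C (constantCoeff g') := by
    rw [X_dvd_iff]
    simp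
  refine ⟨constantCoeff g, constantCoeff g', g'', ?_⟩
  linear_combination hg + X * hg'

lemma mk_iota (g : Iwasawa 2) : Ideal.Quotient.mk K2 (iota 2 g) = Ideal.Quotient.mk K2 g := by
  obtain ⟨a, b, h, rfl⟩ := exists_two_terms g
  rw [map_add (iota 2), map_add (iota 2), map_mul (iota 2), map_mul (iota 2), map_pow (iota 2),
    iota_C, iota_C, iota_X, gi_sub_one]
  simp only [map_add, map_mul, map_neg, map_pow, mk_gi]
  linear_combination (-(Ideal.Quotient.mk K2 (C b)) * (Ideal.Quotient.mk K2 X)) * mk_two +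
    (- (Ideal.Quotient.mk K2 (C b)) + (1 + Ideal.Quotient.mk K2 X) ^ 2 *
      Ideal.Quotient.mk K2 (iota 2 h) - Ideal.Quotient.mk K2 h) * mk_X_sq

lemma ph_two (n : ℕ) : ph 2 n = 1 + (1 + X) ^ (2 ^ n) := by
  rw [ph, Finset.sum_range_succ, Finset.sum_range_one, pow_zero, pow_one]

lemma mk_ph {n : ℕ} (hn : n ≠ 0) : Ideal.Quotient.mk K2 (ph 2 n) = 0 := by
  obtain ⟨m, rfl⟩ := Nat.exists_eq_succ_of_ne_zero hn
  have h1 : (1 + Ideal.Quotient.mk K2 X) ^ 2 = 1 := by
    linear_combination mk_X_sq + Ideal.Quotient.mk K2 X * mk_two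
  rw [ph_two, map_add, map_one, map_pow, map_add, map_one, Nat.succ_eq_add_one, pow_succ',
    pow_mul, h1, one_pow]
  linear_combination mk_two

/-- The exponent at a primitive level is even. -/
lemma even_of_loc {n : ℕ} (hn : n ≠ 0) {D u : Iwasawa 2} (hD : iota 2 D = u * D)
    (hu : X * (X + 2) ∣ u - 1) {m : ℕ} {w a : Iwasawa 2} (hw : IsUnit w)
    (h : D = X ^ m * w + ph 2 n * a) : Even m := by
  rw [h, map_add, map_mul, map_mul, map_pow, iota_X, gi_sub_one, iota_ph, neg_pow, mul_pow] at hD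
  have h1 : ph 2 n ∣ X ^ m * ((-1) ^ m * gi 2 ^ m * iota 2 w - u * w) :=
    ⟨u * a - gi 2 ^ (2 ^ n * (2 - 1)) * iota 2 a, by linear_combination hD⟩
  obtain ⟨b, hb⟩ := dvd_of_ph_dvd_X_pow n m h1
  by_contra hodd
  rw [Nat.not_even_iff_odd] at hodd
  rw [hodd.neg_one_pow, neg_one_mul] at hb
  have h2 := congrArg (Ideal.Quotient.mk K2) hb
  rw [map_sub, map_mul, map_mul, map_mul, mk_ph hn, zero_mul, map_neg, map_pow,
    mk_iota] at h2
  have h3 : Ideal.Quotient.mk K2 u = 1 := by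
    obtain ⟨q, hq⟩ := hu
    have h4 : u = 1 + X * (X + 2) * q := by rw [← hq]; ring
    rw [h4, map_add, map_mul, map_mul, map_add, map_one, map_ofNat]
    linear_combination Ideal.Quotient.mk K2 q * mk_X_sq +
      Ideal.Quotient.mk K2 q * Ideal.Quotient.mk K2 X * mk_two
  rw [h3] at h2
  obtain ⟨t, rfl⟩ := hodd
  rw [pow_succ, pow_mul, mk_gi_sq, one_pow, one_mul, mk_gi] at h2
  have h5 : Ideal.Quotient.mk K2 X * Ideal.Quotient.mk K2 w = 0 := by
    linear_combination -h2 - Ideal.Quotient.mk K2 w * mk_two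
  rw [← map_mul, Ideal.Quotient.eq_zero_iff_mem] at h5
  exact X_notMem ((Ideal.mul_unit_mem_iff_mem K2 hw).1 h5)

/-! ### The point `X = -2` -/

lemma residue_two : IsLocalRing.residue ℤ_[2] 2 = 0 := by
  rw [IsLocalRing.residue_eq_zero_iff]
  have h : (2 : ℤ_[2]) ∈ nonunits ℤ_[2] := by
    have := PadicInt.prime_p (p := 2) |>.not_isUnit
    simpa using this
  exact h

lemma map_residue : (X + 2 : Iwasawa 2).map (IsLocalRing.residue ℤ_[2]) = X := by
  rw [map_add, map_X, map_ofNat]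
  have h := residue_two
  rw [map_ofNat] at h
  have h2 : (2 : PowerSeries (IsLocalRing.ResidueField ℤ_[2])) = C 2 := (map_ofNat C 2).symm
  rw [h2, h, map_zero, add_zero]

lemma div_two (g : Iwasawa 2) : ∃ (q : Iwasawa 2) (r : ℤ_[2]), g = (X + 2) * q + C r := by
  have hne : (X + 2 : Iwasawa 2).map (IsLocalRing.residue ℤ_[2]) ≠ 0 := by
    rw [map_residue]
    exact X_ne_zero
  obtain ⟨q, r, h⟩ := exists_isWeierstrassDivision (f := g) hne
  refine ⟨q, r.coeff 0, ?_⟩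
  have h1 := h.degree_lt
  have h2 : ((X + 2 : Iwasawa 2).map (Ideal.Quotient.mk (IsLocalRing.maximalIdeal ℤ_[2]))) = X :=
    map_residue
  rw [h2, order_X] at h1
  have h3 : r = Polynomial.C (r.coeff 0) := by
    apply Polynomial.eq_C_of_degree_le_zero
    have h4 : ((1 : ℕ∞).toNat : WithBot ℕ) = 1 := rfl
    rw [h4] at h1
    exact Nat.WithBot.lt_one_iff_le_zero.1 h1
  have h5 := h.eq_mul_add
  rw [h3, Polynomial.coe_C] at h5
  exact h5

lemma iota_X_add_two : iota 2 (X + 2) = gi 2 * (X + 2) := by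
  rw [map_add, iota_X, map_ofNat]
  linear_combination (-1 : Iwasawa 2) * gi_mul_g 2

lemma dvd_iota_sub (g : Iwasawa 2) : (X + 2 : Iwasawa 2) ∣ iota 2 g - g := by
  obtain ⟨q, r, rfl⟩ := div_two g
  refine ⟨gi 2 * iota 2 q - q, ?_⟩
  rw [map_add, map_mul, iota_C, iota_X_add_two]
  ring

lemma not_two_dvd : ¬ ((2 : ℕ) : Iwasawa 2) ∣ X + 2 := by
  rw [← red_eq_zero_iff]
  intro h
  have h1 : red (2 : Iwasawa 2) = 0 := by
    rw [red_eq_zero_iff]
    simp
  rw [map_add, h1, add_zero, red, map_X] at h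
  exact X_ne_zero h

lemma dvd_u_sub {D u : Iwasawa 2} (hD : iota 2 D = u * D) (hD2 : ¬ (X + 2 : Iwasawa 2) ∣ D) :
    (X + 2 : Iwasawa 2) ∣ u - 1 := by
  have h1 := dvd_iota_sub D
  obtain ⟨q, r, hq⟩ := div_two D
  have hr : r ≠ 0 := by
    rintro rfl
    apply hD2
    rw [hq, map_zero, add_zero]
    exact dvd_mul_right _ _
  have h2 : (X + 2 : Iwasawa 2) ∣ C r * (u - 1) := by
    have h3 : C r * (u - 1) = (iota 2 D - D) - (X + 2) * (q * (u - 1)) := by
      rw [hD]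
      have h4 : (C r : Iwasawa 2) = D - (X + 2) * q := by rw [hq]; ring
      rw [h4]
      ring
    rw [h3]
    exact dvd_sub h1 (dvd_mul_right _ _)
  have h5 := PadicInt.unitCoeff_spec hr
  have h6 : (C r : Iwasawa 2) = C ((PadicInt.unitCoeff hr : ℤ_[2]ˣ) : ℤ_[2]) *
      ((2 : ℕ) : Iwasawa 2) ^ (PadicInt.valuation r) := by
    conv_lhs => rw [h5]
    rw [map_mul, map_pow, map_natCast]
  have h7 : IsUnit (C ((PadicInt.unitCoeff hr : ℤ_[2]ˣ) : ℤ_[2]) : Iwasawa 2) :=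
    (PadicInt.unitCoeff hr).isUnit.map C
  rw [h6, mul_assoc, h7.dvd_mul_left] at h2
  exact dvd_of_dvd_pow_mul not_two_dvd _ h2

lemma dvd_both {u : Iwasawa 2} (h1 : (X : Iwasawa 2) ∣ u - 1)
    (h2 : (X + 2 : Iwasawa 2) ∣ u - 1) : X * (X + 2) ∣ u - 1 := by
  obtain ⟨q, hq⟩ := h2
  have h3 : (X : Iwasawa 2) ∣ q := by
    rw [X_dvd_iff]
    rw [X_dvd_iff, hq, map_mul, map_add, constantCoeff_X, zero_add, two_eq, constantCoeff_C] at h1
    exact (mul_eq_zero.1 h1).resolve_left two_ne_zero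
  obtain ⟨q', rfl⟩ := h3
  exact ⟨q', by rw [hq]; ring⟩

end Pool.Agent.H33.IW
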