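import Pool.Agent.H33.IW.Two

/-!
# The gap for the prime two
-/

set_option autoImplicit false

namespace Pool.Agent.H33.IW

open PowerSeries Pool.Agent.X308.Iw

lemma ph_zero_two : ph 2 0 = X + 2 := by
  rw [ph_two, pow_zero, pow_one]
  ring

lemma ph_one_two : ph 2 1 = X ^ 2 + 2 * X + 2 := by
  rw [ph_two, pow_one]
  ring

lemma om_one_two : om 2 1 = X * (X + 2) := by
  rw [om_succ, om_zero, ph_zero_two]

lemma om_dvd_om {n : ℕ} (k : ℕ) : om 2 n ∣ om 2 (n + k) := by
  induction k with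
  | zero => exact dvd_rfl
  | succ k ih =>
    rw [← add_assoc, om_succ]
    exact dvd_mul_of_dvd_left ih _

/-- The functional equation has the sign `1` at both fixed points. -/
lemma sign_two {D u : Iwasawa 2} (hD : iota 2 D = u * D) {n : ℕ} (hn : 1 ≤ n)
    (hfin : Finite (Iwasawa 2 ⧸ Ideal.span {D, om 2 n})) : X * (X + 2) ∣ u - 1 := by
  obtain ⟨k, rfl⟩ := Nat.exists_eq_add_of_le hn
  have h1 : X * (X + 2) ∣ om 2 (1 + k) := by
    rw [← om_one_two]
    exact om_dvd_om k
  apply dvd_both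
  · rw [X_dvd_iff, map_sub, map_one, cc_u_of_cc hD (not_X_dvd (dvd_of_mul_right_dvd h1) hfin),
      sub_self]
  · refine dvd_u_sub hD fun h => ?_
    have h2 := isUnit_of_common not_two_dvd h (dvd_of_mul_left_dvd h1) hfin
    rw [isUnit_iff_constantCoeff, map_add, constantCoeff_X, zero_add, two_eq,
      constantCoeff_C] at h2
    have := PadicInt.prime_p (p := 2) |>.not_isUnit
    exact this (by simpa using h2)

/-- The index at a primitive level is an even power of `2`. -/
lemma even_level {n : ℕ} (hn : n ≠ 0) {D u : Iwasawa 2} (hD : iota 2 D = u * D)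
    (hu : X * (X + 2) ∣ u - 1) (hfin : Finite (Iwasawa 2 ⧸ Ideal.span {D, ph 2 n})) :
    ∃ k : ℕ, Nat.card (Iwasawa 2 ⧸ Ideal.span {D, ph 2 n}) = 2 ^ (2 * k) ∧
      ∃ w a : Iwasawa 2, D = X ^ (2 * k) * w + ph 2 n * a := by
  obtain ⟨m, w, a, hw, h1, h2⟩ := loc n _ D hfin le_rfl
  obtain ⟨k, hk⟩ := even_of_loc hn hD hu hw h1
  have hk2 : m = 2 * k := by omega
  subst hk2
  exact ⟨k, h2, w, a, h1⟩

lemma four_le {n : ℕ} (hn : n ≠ 0) {D u : Iwasawa 2} (hD : iota 2 D = u * D)
    (hu : X * (X + 2) ∣ u - 1) (hfin : Finite (Iwasawa 2 ⧸ Ideal.span {D, ph 2 n}))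
    (hDu : ¬ IsUnit D) : 2 ^ 2 ≤ Nat.card (Iwasawa 2 ⧸ Ideal.span {D, ph 2 n}) := by
  obtain ⟨k, hk, -⟩ := even_level hn hD hu hfin
  have h1 := p_le_card hDu (not_isUnit_ph n) hfin
  rw [hk] at h1 ⊢
  have hk0 : k ≠ 0 := by
    rintro rfl
    simp at h1
  exact Nat.pow_le_pow_right (by norm_num) (by omega)

lemma sixteen_le {n : ℕ} (hn : n ≠ 0) {D u : Iwasawa 2} (hD : iota 2 D = u * D)
    (hu : X * (X + 2) ∣ u - 1) (hfin : Finite (Iwasawa 2 ⧸ Ideal.span {D, ph 2 n}))
    (h8 : 2 ^ 3 ≤ Nat.card (Iwasawa 2 ⧸ Ideal.span {D, ph 2 n})) :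
    2 ^ 4 ≤ Nat.card (Iwasawa 2 ⧸ Ideal.span {D, ph 2 n}) := by
  obtain ⟨k, hk, -⟩ := even_level hn hD hu hfin
  rw [hk] at h8 ⊢
  have := (Nat.pow_le_pow_iff_right (by norm_num : 1 < 2)).1 h8
  exact Nat.pow_le_pow_right (by norm_num) (by omega)

lemma red_two : red (2 : Iwasawa 2) = 0 := by
  rw [red_eq_zero_iff]
  simp

lemma red_om (n : ℕ) : red (om 2 n) = (X : PowerSeries (ZMod 2)) ^ (2 ^ n) := by
  have hchar : CharP (PowerSeries (ZMod 2)) 2 := by
    refine charP_of_injective_ringHom (f := (C : ZMod 2 →+* PowerSeries (ZMod 2))) ?_ 2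
    exact C_injective
  rw [om, map_sub, map_pow, map_add, map_one, red, map_X, add_pow_char_pow, one_pow,
    add_sub_cancel_left]

lemma red_ph (n : ℕ) : red (ph 2 n) = (X : PowerSeries (ZMod 2)) ^ (2 ^ n) := by
  have h1 := congrArg red (om_succ (p := 2) n)
  rw [map_mul, red_om, red_om, pow_succ, pow_mul, sq] at h1
  exact (mul_left_cancel₀ (pow_ne_zero _ X_ne_zero) h1).symm

lemma mem_of_red {g : Iwasawa 2} {k : ℕ} (h : (X : PowerSeries (ZMod 2)) ^ k ∣ red g) :
    g ∈ Ideal.span {(X : Iwasawa 2) ^ k, ((2 : ℕ) : Iwasawa 2)} := by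
  obtain ⟨e, he⟩ := h
  obtain ⟨E, rfl⟩ : ∃ E : Iwasawa 2, red E = e :=
    PowerSeries.map_surjective _ (ZMod.ringHom_surjective _) e
  obtain ⟨a, ha⟩ : ((2 : ℕ) : Iwasawa 2) ∣ g - X ^ k * E := by
    rw [← red_eq_zero_iff, map_sub, map_mul, map_pow, he]
    have : red (X : Iwasawa 2) = X := by rw [red, map_X]
    rw [this, sub_self]
  rw [Ideal.mem_span_pair]
  exact ⟨E, a, by linear_combination -ha⟩

/-- Product over the levels from `2` on. -/
lemma tail {D : Iwasawa 2} (c : ℕ) (k : ℕ)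
    (hfin : Finite (Iwasawa 2 ⧸ Ideal.span {D, om 2 (2 + k)}))
    (h : ∀ j, 2 ≤ j → Finite (Iwasawa 2 ⧸ Ideal.span {D, ph 2 j}) →
      2 ^ c ≤ Nat.card (Iwasawa 2 ⧸ Ideal.span {D, ph 2 j})) :
    Nat.card (Iwasawa 2 ⧸ Ideal.span {D, om 2 2}) * 2 ^ (c * k) ≤
      Nat.card (Iwasawa 2 ⧸ Ideal.span {D, om 2 (2 + k)}) := by
  induction k with
  | zero => simp
  | succ k ih =>
    have he : om 2 (2 + (k + 1)) = om 2 (2 + k) * ph 2 (2 + k) := om_succ (2 + k)
    rw [he] at hfin ⊢
    have h1 : Finite (Iwasawa 2 ⧸ Ideal.span {D, om 2 (2 + k)}) :=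
      finite_of_le (span_pair_le dvd_rfl (dvd_mul_right _ _)) hfin
    have h2 : Finite (Iwasawa 2 ⧸ Ideal.span {D, ph 2 (2 + k)}) :=
      finite_of_le (span_pair_le dvd_rfl (dvd_mul_left _ _)) hfin
    rw [card_mul_right (not_p_dvd_om (2 + k)) h1]
    calc _ = (Nat.card (Iwasawa 2 ⧸ Ideal.span {D, om 2 2}) * 2 ^ (c * k)) * 2 ^ c := by ring
      _ ≤ _ := Nat.mul_le_mul (ih h1) (h (2 + k) (by omega) h2)

lemma card_two_X_pow (k : ℕ) :
    Nat.card (Iwasawa 2 ⧸ Ideal.span {(X : Iwasawa 2) ^ k, ((2 : ℕ) : Iwasawa 2)}) = 2 ^ k :=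
  card_X_pow_p k

lemma not_p_dvd_X : ¬ ((2 : ℕ) : Iwasawa 2) ∣ X := by
  rw [← om_zero]
  exact not_p_dvd_om 0

lemma card_four_X :
    Nat.card (Iwasawa 2 ⧸ Ideal.span {((2 : ℕ) : Iwasawa 2) * ((2 : ℕ) : Iwasawa 2), X}) =
      2 ^ 2 := by
  rw [card_p_sq not_p_dvd_X, Set.pair_comm, ← pow_one (X : Iwasawa 2), card_two_X_pow]
  norm_num

lemma card_four_X_two :
    Nat.card (Iwasawa 2 ⧸ Ideal.span {((2 : ℕ) : Iwasawa 2) * ((2 : ℕ) : Iwasawa 2), X + 2}) =
      2 ^ 2 := by
  rw [card_p_sq not_two_dvd]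
  have h1 : Ideal.span {((2 : ℕ) : Iwasawa 2), X + 2} =
      Ideal.span {(X : Iwasawa 2) ^ 1, ((2 : ℕ) : Iwasawa 2)} := by
    rw [pow_one, Set.pair_comm X]
    apply le_antisymm
    · rw [Ideal.span_le]
      rintro x (rfl | rfl)
      · exact Ideal.subset_span (by simp)
      · exact Ideal.add_mem _ (Ideal.subset_span (by simp)) (Ideal.subset_span (by simp))
    · rw [Ideal.span_le]
      rintro x (rfl | rfl)
      · exact Ideal.subset_span (by simp)
      · have h2 : (X : Iwasawa 2) = (X + 2) - ((2 : ℕ) : Iwasawa 2) := by push_cast; ring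
        have h3 : (X + 2 : Iwasawa 2) - ((2 : ℕ) : Iwasawa 2) ∈
            Ideal.span {((2 : ℕ) : Iwasawa 2), X + 2} :=
          Ideal.sub_mem _ (Ideal.subset_span (by simp)) (Ideal.subset_span (by simp))
        rwa [← h2] at h3
  rw [h1, card_two_X_pow]
  norm_num

/-- **The gap for the prime two.** -/
theorem gap_two {D u : Iwasawa 2} (hD : iota 2 D = u * D) (hDu : ¬ IsUnit D) (n : ℕ)
    (hfin : Finite (Iwasawa 2 ⧸ Ideal.span {D, om 2 n})) :
    2 ^ (min (2 ^ n) (2 * n + 2)) ≤ Nat.card (Iwasawa 2 ⧸ Ideal.span {D, om 2 n}) := by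
  have hXu : ¬ IsUnit (X : Iwasawa 2) := not_isUnit_of_mem (Ideal.subset_span (by simp))
  rcases Nat.lt_or_ge n 2 with hn | hn
  · interval_cases n
    · rw [om_zero] at hfin ⊢
      simpa using p_le_card hDu hXu hfin
    · rw [om_succ, om_zero] at hfin ⊢
      have h1 : Finite (Iwasawa 2 ⧸ Ideal.span {D, X}) :=
        finite_of_le (span_pair_le dvd_rfl (dvd_mul_right _ _)) hfin
      have h2 : Finite (Iwasawa 2 ⧸ Ideal.span {D, ph 2 0}) :=
        finite_of_le (span_pair_le dvd_rfl (dvd_mul_left _ _)) hfin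
      rw [card_mul_right not_p_dvd_X h1]
      calc 2 ^ (min (2 ^ 1) (2 * 1 + 2)) = 2 * 2 := by norm_num
        _ ≤ _ := Nat.mul_le_mul (p_le_card hDu hXu h1) (p_le_card hDu (not_isUnit_ph 0) h2)
  · have hu := sign_two hD (by omega) hfin
    obtain ⟨k, rfl⟩ := Nat.exists_eq_add_of_le hn
    have hfin2 : Finite (Iwasawa 2 ⧸ Ideal.span {D, om 2 2}) :=
      finite_of_le (span_pair_le dvd_rfl (om_dvd_om k)) hfin
    have hom2 : om 2 2 = (X * ph 2 0) * ph 2 1 := by
      rw [om_succ, om_succ, om_zero]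
    have hfin1 : Finite (Iwasawa 2 ⧸ Ideal.span {D, X * ph 2 0}) := by
      rw [hom2] at hfin2
      exact finite_of_le (span_pair_le dvd_rfl (dvd_mul_right _ _)) hfin2
    have fX : Finite (Iwasawa 2 ⧸ Ideal.span {D, X}) :=
      finite_of_le (span_pair_le dvd_rfl (dvd_mul_right _ _)) hfin1
    have f0 : Finite (Iwasawa 2 ⧸ Ideal.span {D, ph 2 0}) :=
      finite_of_le (span_pair_le dvd_rfl (dvd_mul_left _ _)) hfin1
    have f1 : Finite (Iwasawa 2 ⧸ Ideal.span {D, ph 2 1}) := by
      rw [hom2] at hfin2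
      exact finite_of_le (span_pair_le dvd_rfl (dvd_mul_left _ _)) hfin2
    have hT : Nat.card (Iwasawa 2 ⧸ Ideal.span {D, om 2 2}) =
        Nat.card (Iwasawa 2 ⧸ Ideal.span {D, X}) *
          Nat.card (Iwasawa 2 ⧸ Ideal.span {D, ph 2 0}) *
          Nat.card (Iwasawa 2 ⧸ Ideal.span {D, ph 2 1}) := by
      rw [hom2, card_mul_right _ hfin1, card_mul_right not_p_dvd_X fX]
      have : X * ph 2 0 = om 2 1 := by rw [om_succ, om_zero]
      rw [this]
      exact not_p_dvd_om 1
    have cX := p_le_card hDu hXu fX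
    have c0 := p_le_card hDu (not_isUnit_ph 0) f0
    have c1 := four_le one_ne_zero hD hu f1 hDu
    have h4 : ∀ j, 2 ≤ j → Finite (Iwasawa 2 ⧸ Ideal.span {D, ph 2 j}) →
        2 ^ 2 ≤ Nat.card (Iwasawa 2 ⧸ Ideal.span {D, ph 2 j}) := fun j hj hf =>
      four_le (by omega) hD hu hf hDu
    -- it suffices to have `2 ^ 6` at the level two
    have suff6 : 2 ^ 6 ≤ Nat.card (Iwasawa 2 ⧸ Ideal.span {D, om 2 2}) →
        2 ^ (min (2 ^ (2 + k)) (2 * (2 + k) + 2)) ≤
          Nat.card (Iwasawa 2 ⧸ Ideal.span {D, om 2 (2 + k)}) := by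
      intro h6
      calc 2 ^ (min (2 ^ (2 + k)) (2 * (2 + k) + 2)) ≤ 2 ^ (2 * (2 + k) + 2) :=
            Nat.pow_le_pow_right (by norm_num) (min_le_right _ _)
        _ = 2 ^ 6 * 2 ^ (2 * k) := by rw [← pow_add]; congr 1; ring
        _ ≤ _ := Nat.mul_le_mul_right _ h6
        _ ≤ _ := tail 2 k hfin h4
    by_cases h2D : ((2 : ℕ) : Iwasawa 2) ∣ D
    · -- `D` is divisible by `2`
      calc 2 ^ (min (2 ^ (2 + k)) (2 * (2 + k) + 2)) ≤ 2 ^ (2 ^ (2 + k)) :=
            Nat.pow_le_pow_right (by norm_num) (min_le_left _ _)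
        _ = Nat.card (Iwasawa 2 ⧸ Ideal.span {(X : Iwasawa 2) ^ (2 ^ (2 + k)),
              ((2 : ℕ) : Iwasawa 2)}) := (card_two_X_pow _).symm
        _ ≤ _ := by
          refine card_le_of_mem hfin ?_ ?_
          · exact Ideal.mem_of_dvd _ h2D (Ideal.subset_span (by simp))
          · exact mem_of_red (by rw [red_om])
    · -- the lambda invariant is at least two
      obtain ⟨m, hm, w, e, hwe⟩ := even_level one_ne_zero hD hu f1
      have hm0 : m ≠ 0 := by
        rintro rfl
        rw [hm] at c1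
        norm_num at c1
      obtain ⟨m', rfl⟩ := Nat.exists_eq_succ_of_ne_zero hm0
      have hform : D = 2 * ((1 + X) * e) + X ^ 2 * (X ^ (2 * m') * w + e) := by
        rw [hwe, ph_one_two, Nat.succ_eq_add_one]
        ring
      set a : Iwasawa 2 := (1 + X) * e with ha
      set b : Iwasawa 2 := X ^ (2 * m') * w + e with hb
      by_cases hbu : IsUnit b
      · apply suff6
        rw [hT]
        by_cases hau : IsUnit a
        · -- level one has at least 16
          have h8 : 2 ^ 3 ≤ Nat.card (Iwasawa 2 ⧸ Ideal.span {D, ph 2 1}) := by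
            have h3 : b - gi 2 * a ∈ maxIdeal 2 := by
              apply mem_maxIdeal
              rw [isUnit_iff_constantCoeff, map_sub, map_mul, constantCoeff_gi, one_mul]
              rw [isUnit_iff_constantCoeff] at hbu hau
              have h5 : ∀ x : ℤ_[2], IsUnit x → PadicInt.toZMod x = 1 := by
                intro x hx
                have h6 : IsUnit (PadicInt.toZMod x) := hx.map _
                have h7 : ∀ z : ZMod 2, IsUnit z → z = 1 := by decide
                exact h7 _ h6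
              intro h9
              have h10 := h5 _ h9
              rw [map_sub, h5 _ hbu, h5 _ hau, sub_self] at h10
              exact absurd h10 (by decide)
            rw [maxIdeal, Ideal.mem_span_pair] at h3
            obtain ⟨c, d, hcd⟩ := h3
            have hg := gi_mul_g 2
            have h5 : D = X ^ 3 * (d - X * gi 2 * c) + ph 2 1 * (gi 2 * (a + X ^ 2 * c)) := by
              rw [hform, ph_one_two]
              push_cast at hcd
              linear_combination (-(2 * a) - 2 * X ^ 2 * c) * hg - X ^ 2 * hcd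
            have h6 : D ∈ Ideal.span {(X : Iwasawa 2) ^ 3, ph 2 1} := by
              rw [Ideal.mem_span_pair]
              exact ⟨d - X * gi 2 * c, gi 2 * (a + X ^ 2 * c), by rw [h5]; ring⟩
            have h7 : Nat.card (Iwasawa 2 ⧸ Ideal.span {(X : Iwasawa 2) ^ 3, ph 2 1}) =
                2 ^ 3 := by
              have h8 : ∀ r : ℕ, Nat.card (Iwasawa 2 ⧸ Ideal.span {(X : Iwasawa 2) ^ r, ph 2 1}) =
                  2 ^ r := by
                intro r
                induction r with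
                | zero => rw [pow_zero, card_of_isUnit isUnit_one, pow_zero]
                | succ r ih =>
                  rw [pow_succ' X r, card_mul_left (not_p_dvd_ph 1) (card_X_ph 1).1, ih,
                    (card_X_ph 1).2, pow_succ']
              exact h8 3
            rw [← h7]
            exact card_le_of_mem f1 h6 (Ideal.subset_span (by simp))
          have h16 := sixteen_le one_ne_zero hD hu f1 h8
          calc 2 ^ 6 = 2 * 2 * 2 ^ 4 := by norm_num
            _ ≤ _ := Nat.mul_le_mul (Nat.mul_le_mul cX c0) h16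
        · -- `D` is divisible by `4` at both fixed points
          have h3 := mem_maxIdeal hau
          rw [maxIdeal, Ideal.mem_span_pair] at h3
          obtain ⟨c, d, hcd⟩ := h3
          have c4 : 2 ^ 2 ≤ Nat.card (Iwasawa 2 ⧸ Ideal.span {D, X}) := by
            rw [← card_four_X]
            refine card_le_of_mem fX ?_ (Ideal.subset_span (by simp))
            rw [Ideal.mem_span_pair]
            refine ⟨c, 2 * d + X * b, ?_⟩
            rw [hform, ← hcd]
            push_cast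
            ring
          have c4' : 2 ^ 2 ≤ Nat.card (Iwasawa 2 ⧸ Ideal.span {D, ph 2 0}) := by
            rw [← card_four_X_two]
            refine card_le_of_mem f0 ?_ (by rw [ph_zero_two]; exact Ideal.subset_span (by simp))
            rw [Ideal.mem_span_pair]
            refine ⟨c - d + b, 2 * d + (X - 2) * b, ?_⟩
            rw [hform, ← hcd]
            push_cast
            ring
          calc 2 ^ 6 = 2 ^ 2 * 2 ^ 2 * 2 ^ 2 := by norm_num
            _ ≤ _ := Nat.mul_le_mul (Nat.mul_le_mul c4 c4') c1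
      · -- the lambda invariant is at least three
        rcases Nat.eq_zero_or_pos k with rfl | hk
        · rw [hT]
          calc 2 ^ (min (2 ^ (2 + 0)) (2 * (2 + 0) + 2)) = 2 * 2 * 2 ^ 2 := by norm_num
            _ ≤ _ := Nat.mul_le_mul (Nat.mul_le_mul cX c0) c1
        · have hD3 : D ∈ Ideal.span {(X : Iwasawa 2) ^ 3, ((2 : ℕ) : Iwasawa 2)} := by
            have h3 := mem_maxIdeal hbu
            rw [maxIdeal, Ideal.mem_span_pair] at h3
            obtain ⟨c, d, hcd⟩ := h3
            rw [Ideal.mem_span_pair]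
            refine ⟨d, a + X ^ 2 * c, ?_⟩
            rw [hform, ← hcd]
            push_cast
            ring
          have h16 : ∀ j, 2 ≤ j → Finite (Iwasawa 2 ⧸ Ideal.span {D, ph 2 j}) →
              2 ^ 4 ≤ Nat.card (Iwasawa 2 ⧸ Ideal.span {D, ph 2 j}) := by
            intro j hj hf
            refine sixteen_le (by omega) hD hu hf ?_
            rw [← card_two_X_pow 3]
            refine card_le_of_mem hf hD3 (mem_of_red ?_)
            rw [red_ph]
            refine pow_dvd_pow _ ?_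
            calc 3 ≤ 2 ^ 2 := by norm_num
              _ ≤ 2 ^ j := Nat.pow_le_pow_right (by norm_num) hj
          calc 2 ^ (min (2 ^ (2 + k)) (2 * (2 + k) + 2)) ≤ 2 ^ (2 * (2 + k) + 2) :=
                Nat.pow_le_pow_right (by norm_num) (min_le_right _ _)
            _ ≤ 2 ^ (4 + 4 * k) := Nat.pow_le_pow_right (by norm_num) (by omega)
            _ = 2 * 2 * 2 ^ 2 * 2 ^ (4 * k) := by rw [pow_add]; norm_num
            _ ≤ Nat.card (Iwasawa 2 ⧸ Ideal.span {D, om 2 2}) * 2 ^ (4 * k) := by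
              rw [hT]
              exact Nat.mul_le_mul_right _ (Nat.mul_le_mul (Nat.mul_le_mul cX c0) c1)
            _ ≤ _ := tail 4 k hfin h16

end Pool.Agent.H33.IW
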