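import Pool.Agent.H33.IW.TwoGap

/-!
# Sharpness for the prime two and the criterion for all primes
-/

set_option autoImplicit false

namespace Pool.Agent.H33.IW

open PowerSeries Pool.Agent.X308.Iw

lemma card_two_om (n : ℕ) :
    Nat.card (Iwasawa 2 ⧸ Ideal.span {((2 : ℕ) : Iwasawa 2), om 2 n}) = 2 ^ (2 ^ n) := by
  rw [← card_two_X_pow]
  have h : Ideal.span {((2 : ℕ) : Iwasawa 2), om 2 n} =
      Ideal.span {(X : Iwasawa 2) ^ (2 ^ n), ((2 : ℕ) : Iwasawa 2)} := by
    apply le_antisymm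
    · rw [Ideal.span_le]
      rintro x (rfl | rfl)
      · exact Ideal.subset_span (by simp)
      · exact mem_of_red (by rw [red_om])
    · have h1 : om 2 n ∈ Ideal.span {(X : Iwasawa 2) ^ (2 ^ n), ((2 : ℕ) : Iwasawa 2)} :=
        mem_of_red (by rw [red_om])
      obtain ⟨a, ha⟩ : ((2 : ℕ) : Iwasawa 2) ∣ X ^ (2 ^ n) - om 2 n := by
        rw [← red_eq_zero_iff, map_sub, red_om, map_pow]
        have : red (X : Iwasawa 2) = X := by rw [red, map_X]
        rw [this, sub_self]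
      rw [Ideal.span_le]
      rintro x (rfl | rfl)
      · have h2 : (X : Iwasawa 2) ^ (2 ^ n) = om 2 n + ((2 : ℕ) : Iwasawa 2) * a := by
          rw [← ha]; ring
        rw [h2]
        exact Ideal.add_mem _ (Ideal.subset_span (by simp))
          (Ideal.mul_mem_right _ _ (Ideal.subset_span (by simp)))
      · exact Ideal.subset_span (by simp)
  rw [h]

lemma D0_two : D0 2 = X ^ 2 - 2 * (1 + X) := by
  rw [D0]
  push_cast
  ring

lemma card_D0_X : Finite (Iwasawa 2 ⧸ Ideal.span {D0 2, X}) ∧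
    Nat.card (Iwasawa 2 ⧸ Ideal.span {D0 2, X}) = 2 := by
  have hX : (X : Iwasawa 2) ∈ Ideal.span {D0 2, X} := Ideal.subset_span (by simp)
  have hpm : ((2 : ℕ) : Iwasawa 2) ∈ Ideal.span {D0 2, X} := by
    have h1 : ((2 : ℕ) : Iwasawa 2) = X * (X - 2) - D0 2 := by
      rw [D0_two]
      push_cast
      ring
    have h3 : X * (X - 2) - D0 2 ∈ Ideal.span {D0 2, X} :=
      Ideal.sub_mem _ (Ideal.mul_mem_right _ _ hX) (Ideal.subset_span (by simp))
    rwa [← h1] at h3
  obtain ⟨hfin, hle⟩ := card_le_one hpm hX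
  exact ⟨hfin, le_antisymm hle (p_le_card not_isUnit_D0
    (not_isUnit_of_mem (Ideal.subset_span (by simp))) hfin)⟩

lemma isUnit_three : IsUnit (3 : Iwasawa 2) := by
  rw [isUnit_iff_constantCoeff]
  have h2 : (3 : Iwasawa 2) = C (3 : ℤ_[2]) := (map_ofNat C 3).symm
  rw [h2, constantCoeff_C]
  have h : IsUnit ((3 : ℕ) : ℤ_[2]) := by
    rw [PadicInt.isUnit_iff, PadicInt.norm_natCast_eq_one_iff]
    norm_num
  simpa using h

lemma card_D0_ph_zero : Finite (Iwasawa 2 ⧸ Ideal.span {D0 2, ph 2 0}) ∧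
    Nat.card (Iwasawa 2 ⧸ Ideal.span {D0 2, ph 2 0}) = 2 := by
  have hP : (ph 2 0 : Iwasawa 2) ∈ Ideal.span {D0 2, ph 2 0} := Ideal.subset_span (by simp)
  have hD : (D0 2 : Iwasawa 2) ∈ Ideal.span {D0 2, ph 2 0} := Ideal.subset_span (by simp)
  have h6 : ((2 : ℕ) : Iwasawa 2) * 3 ∈ Ideal.span {D0 2, ph 2 0} := by
    have h1 : ((2 : ℕ) : Iwasawa 2) * 3 = D0 2 - ph 2 0 * (X - 4) := by
      rw [D0_two, ph_zero_two]
      push_cast
      ring
    rw [h1]
    exact Ideal.sub_mem _ hD (Ideal.mul_mem_right _ _ hP)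
  have hpm : ((2 : ℕ) : Iwasawa 2) ∈ Ideal.span {D0 2, ph 2 0} :=
    (Ideal.mul_unit_mem_iff_mem _ isUnit_three).1 h6
  have hX : (X : Iwasawa 2) ∈ Ideal.span {D0 2, ph 2 0} := by
    have h1 : (X : Iwasawa 2) = ph 2 0 - ((2 : ℕ) : Iwasawa 2) := by
      rw [ph_zero_two]
      push_cast
      ring
    have h3 := Ideal.sub_mem _ hP hpm
    rwa [← h1] at h3
  obtain ⟨hfin, hle⟩ := card_le_one hpm hX
  exact ⟨hfin, le_antisymm hle (p_le_card not_isUnit_D0 (not_isUnit_ph 0) hfin)⟩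

lemma card_D0_ph_one : Nat.card (Iwasawa 2 ⧸ Ideal.span {D0 2, ph 2 1}) = 2 ^ 4 := by
  have h1 : Ideal.span {D0 2, ph 2 1} =
      Ideal.span {((2 : ℕ) : Iwasawa 2) * ((2 : ℕ) : Iwasawa 2), ph 2 1} := by
    have hg := g_mul_gi 2
    apply le_antisymm
    · rw [Ideal.span_le]
      rintro x (rfl | rfl)
      · apply Ideal.mem_span_pair.2
        refine ⟨-(1 + X), 1, ?_⟩
        rw [D0_two, ph_one_two]
        push_cast
        ring
      · exact Ideal.subset_span (by simp)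
    · rw [Ideal.span_le]
      rintro x (rfl | rfl)
      · apply Ideal.mem_span_pair.2
        refine ⟨- gi 2, gi 2, ?_⟩
        rw [D0_two, ph_one_two]
        push_cast
        linear_combination (4 : Iwasawa 2) * hg
      · exact Ideal.subset_span (by simp)
  have h2 : Ideal.span {((2 : ℕ) : Iwasawa 2), ph 2 1} =
      Ideal.span {(X : Iwasawa 2) ^ 2, ((2 : ℕ) : Iwasawa 2)} := by
    apply le_antisymm
    · rw [Ideal.span_le]
      rintro x (rfl | rfl)
      · exact Ideal.subset_span (by simp)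
      · apply Ideal.mem_span_pair.2
        refine ⟨1, 1 + X, ?_⟩
        rw [ph_one_two]
        push_cast
        ring
    · rw [Ideal.span_le]
      rintro x (rfl | rfl)
      · apply Ideal.mem_span_pair.2
        refine ⟨-(1 + X), 1, ?_⟩
        rw [ph_one_two]
        push_cast
        ring
      · exact Ideal.subset_span (by simp)
  rw [h1, card_p_sq (not_p_dvd_ph 1), h2, card_two_X_pow]
  norm_num

lemma card_D0_ph_ge {j : ℕ} (hj : 2 ≤ j) :
    Nat.card (Iwasawa 2 ⧸ Ideal.span {D0 2, ph 2 j}) = 2 ^ 2 := by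
  obtain ⟨k, rfl⟩ := Nat.exists_eq_add_of_le hj
  obtain ⟨r, hr⟩ := om_dvd_om (n := 2) k
  have hom2 : om 2 2 = X * (X + 2) * ph 2 1 := by
    rw [om_succ, om_one_two]
  have hph : ph 2 (2 + k) = 2 + om 2 (2 + k) := by
    rw [ph_two, om]
    ring
  have h1 : ph 2 1 = D0 2 + 4 * (1 + X) := by
    rw [ph_one_two, D0_two]
    ring
  set s : Iwasawa 2 := 1 + 2 * ((1 + X) * (X * (X + 2)) * r) with hs
  have hsu : IsUnit s := by
    rw [isUnit_iff_constantCoeff, hs, map_add, map_one, map_mul, map_mul, map_mul, map_mul,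
      constantCoeff_X]
    simp
  have h2 : ((2 : ℕ) : Iwasawa 2) * s = ph 2 (2 + k) - D0 2 * (X * (X + 2) * r) := by
    rw [hph, hr, hom2, h1, hs]
    push_cast
    ring
  have hD : (D0 2 : Iwasawa 2) ∈ Ideal.span {D0 2, ph 2 (2 + k)} := Ideal.subset_span (by simp)
  have h3 : ((2 : ℕ) : Iwasawa 2) ∈ Ideal.span {D0 2, ph 2 (2 + k)} := by
    apply (Ideal.mul_unit_mem_iff_mem _ hsu).1
    rw [h2]
    exact Ideal.sub_mem _ (Ideal.subset_span (by simp)) (Ideal.mul_mem_right _ _ hD)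
  obtain ⟨hfin, hle⟩ := card_le_two h3 (X_sq_mem hD h3)
  refine le_antisymm hle ?_
  rw [← card_two_X_pow 2]
  refine card_le_of_mem hfin ?_ (mem_of_red ?_)
  · rw [Ideal.mem_span_pair]
    refine ⟨1, -(1 + X), ?_⟩
    rw [D0_two]
    push_cast
    ring
  · rw [red_ph]
    refine pow_dvd_pow _ ?_
    calc 2 ≤ 2 ^ 2 := by norm_num
      _ ≤ 2 ^ (2 + k) := Nat.pow_le_pow_right (by norm_num) (by omega)

lemma card_D0_om_two (k : ℕ) :
    Nat.card (Iwasawa 2 ⧸ Ideal.span {D0 2, om 2 (2 + k)}) = 2 ^ (2 * (2 + k) + 2) := by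
  induction k with
  | zero =>
    have hom2 : om 2 (2 + 0) = (X * ph 2 0) * ph 2 1 := by
      rw [add_zero, om_succ, om_succ, om_zero]
    have h1 : Nat.card (Iwasawa 2 ⧸ Ideal.span {D0 2, X * ph 2 0}) = 2 * 2 := by
      rw [card_mul_right not_p_dvd_X card_D0_X.1, card_D0_X.2, card_D0_ph_zero.2]
    have hf : Finite (Iwasawa 2 ⧸ Ideal.span {D0 2, X * ph 2 0}) := by
      apply Nat.finite_of_card_ne_zero
      rw [h1]
      norm_num
    have hnd : ¬ ((2 : ℕ) : Iwasawa 2) ∣ X * ph 2 0 := by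
      have : X * ph 2 0 = om 2 1 := by rw [om_succ, om_zero]
      rw [this]
      exact not_p_dvd_om 1
    rw [hom2, card_mul_right hnd hf, h1, card_D0_ph_one]
    norm_num
  | succ k ih =>
    have he : om 2 (2 + (k + 1)) = om 2 (2 + k) * ph 2 (2 + k) := om_succ (2 + k)
    have hfin : Finite (Iwasawa 2 ⧸ Ideal.span {D0 2, om 2 (2 + k)}) := by
      apply Nat.finite_of_card_ne_zero
      rw [ih]
      exact pow_ne_zero _ (by norm_num)
    rw [he, card_mul_right (not_p_dvd_om (2 + k)) hfin, ih, card_D0_ph_ge (by omega)]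
    ring

/-- The exact exponent of the gap. -/
def gapExp (p n : ℕ) : ℕ := if p = 2 then min (2 ^ n) (2 * n + 2) else 2 * n + 1

lemma gapExp_pos (p n : ℕ) : gapExp p n ≠ 0 := by
  unfold gapExp
  split_ifs
  · have h1 : 0 < 2 ^ n := by positivity
    omega
  · omega

variable {p : ℕ} [hp : Fact p.Prime]

/-- The gap for all primes. -/
theorem gap_all {D u : Iwasawa p} (hD : iota p D = u * D) (hDu : ¬ IsUnit D) (n : ℕ)
    (hfin : Finite (Iwasawa p ⧸ Ideal.span {D, om p n})) :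
    p ^ (gapExp p n) ≤ Nat.card (Iwasawa p ⧸ Ideal.span {D, om p n}) := by
  by_cases hp2 : p = 2
  · subst hp2
    rw [gapExp, if_pos rfl]
    exact gap_two hD hDu n hfin
  · rw [gapExp, if_neg hp2]
    have hc := not_X_dvd (X_dvd_om n) hfin
    have hD0 : D ≠ 0 := by
      rintro rfl
      simp at hc
    exact gap_om hp2 hD0 hD (cc_u_of_cc hD hc) hDu n hfin

/-- The criterion for all primes. -/
theorem crit_all {f L : Iwasawa p} (hfL : f ∣ L)
    (hfun : Ideal.span {f * iota p L} = Ideal.span {L * iota p f}) (n : ℕ)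
    (hfin : Finite (Iwasawa p ⧸ Ideal.span {L, om p n})) :
    Ideal.span {f} = Ideal.span {L} ↔
      Nat.card (Iwasawa p ⧸ Ideal.span {L, om p n}) <
        p ^ (gapExp p n) * Nat.card (Iwasawa p ⧸ Ideal.span {f, om p n}) := by
  obtain ⟨D, rfl⟩ := hfL
  have hc := not_X_dvd (X_dvd_om n) hfin
  rw [map_mul] at hc
  have hf : f ≠ 0 := by
    rintro rfl
    simp at hc
  obtain ⟨u, hu⟩ := exists_u hf hfun
  have hf1 : Finite (Iwasawa p ⧸ Ideal.span {f, om p n}) :=
    finite_of_le (span_pair_le (dvd_mul_right _ _) dvd_rfl) hfin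
  have hf2 : Finite (Iwasawa p ⧸ Ideal.span {D, om p n}) :=
    finite_of_le (span_pair_le (dvd_mul_left _ _) dvd_rfl) hfin
  have hpos : 0 < Nat.card (Iwasawa p ⧸ Ideal.span {f, om p n}) := Nat.card_pos
  rw [card_mul_left (not_p_dvd_om n) hf1, span_eq_iff_isUnit hf,
    mul_comm (Nat.card (Iwasawa p ⧸ Ideal.span {f, om p n}))]
  constructor
  · intro h
    rw [card_of_isUnit h]
    exact Nat.mul_lt_mul_of_pos_right (Nat.one_lt_pow (gapExp_pos p n) hp.out.one_lt) hpos
  · intro h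
    by_contra hDu
    have h1 := gap_all hu hDu n hf2
    exact absurd (Nat.mul_le_mul_right _ h1) (not_le.2 h)

/-- The criterion is sharp at every level. -/
theorem sharp_all (n : ℕ) : ∃ L : Iwasawa p, Ideal.span {iota p L} = Ideal.span {L} ∧
    ¬ IsUnit L ∧ Nat.card (Iwasawa p ⧸ Ideal.span {L, om p n}) = p ^ (gapExp p n) := by
  have hst : Ideal.span {iota p (D0 p)} = Ideal.span {D0 p} := by
    rw [iota_D0]
    refine Ideal.span_singleton_mul_left_unit ?_ _
    exact (IsUnit.of_mul_eq_one _ (gi_mul_g p)).pow 2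
  by_cases hp2 : p = 2
  · subst hp2
    rw [gapExp, if_pos rfl]
    rcases Nat.lt_or_ge n 3 with hn | hn
    · refine ⟨((2 : ℕ) : Iwasawa 2), by rw [map_natCast], ?_, ?_⟩
      · exact not_isUnit_of_mem (Ideal.subset_span (by simp))
      · rw [card_two_om]
        interval_cases n <;> norm_num
    · refine ⟨D0 2, hst, not_isUnit_D0, ?_⟩
      obtain ⟨k, rfl⟩ := Nat.exists_eq_add_of_le hn
      have h1 := card_D0_om_two (k + 1)
      have h2 : 2 + (k + 1) = 3 + k := by ring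
      rw [h2] at h1
      rw [h1]
      congr 1
      symm
      apply min_eq_right
      have h3 : ∀ k : ℕ, 2 * (3 + k) + 2 ≤ 2 ^ (3 + k) := by
        intro k
        induction k with
        | zero => norm_num
        | succ k ih =>
          have : 2 ^ (3 + (k + 1)) = 2 * 2 ^ (3 + k) := by ring
          omega
      exact h3 k
  · rw [gapExp, if_neg hp2]
    exact ⟨D0 p, hst, not_isUnit_D0, card_D0_om hp2 n⟩

end Pool.Agent.H33.IW
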